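import Pool.Agent.Helper49.TE.AS2

/-!
Project TE (MP_8b4d68_lc): packet AS1.
-/

set_option autoImplicit false

namespace Pool.Agent.Helper1.TE

open Pool.Agent.Helper49.TE (full_len full_log)

theorem gAS1 : GoalAS1 := by
  refine ⟨8, by norm_num, ?_⟩
  intro ok w h b hf
  obtain ⟨_, hb1, _, h4⟩ := full_len hf
  obtain ⟨e1, e2, e3⟩ := full_log hf
  set L : ℝ := Real.log w.length with hL
  have hh : (0 : ℝ) ≤ h := Nat.cast_nonneg h
  have hb : (1 : ℝ) ≤ b := by exact_mod_cast hb1
  have hn : (4 : ℝ) ≤ w.length := by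
    have h5 : 4 ^ 1 ≤ 4 ^ b := Nat.pow_le_pow_right (by norm_num) hb1
    have h6 : 4 ≤ w.length := by omega
    exact_mod_cast h6
  have hL4 : (1.38 : ℝ) ≤ L := by
    have h5 : Real.log 4 ≤ L := Real.log_le_log (by norm_num) hn
    have h6 : Real.log 4 = 2 * Real.log 2 := by
      rw [show (4 : ℝ) = 2 ^ 2 by norm_num, Real.log_pow]
      push_cast
      ring
    have := Real.log_two_gt_d9
    linarith
  have hLL : (1 / 4 : ℝ) ≤ Real.log L := by
    have h5 := Real.one_sub_inv_le_log_of_pos (show (0 : ℝ) < L by linarith)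
    have h6 : L⁻¹ ≤ (1.38 : ℝ)⁻¹ := by
      apply inv_anti₀ (by norm_num) hL4
    have h7 : (1.38 : ℝ)⁻¹ ≤ 3 / 4 := by norm_num
    linarith
  have hs : (1 / 2 : ℝ) ≤ √(Real.log L) := by
    apply Real.le_sqrt_of_sq_le
    linarith
  have hlb : Real.log b ≤ Real.log L := Real.log_le_log (by linarith) e2
  have hlb0 : 0 ≤ Real.log b := Real.log_nonneg hb
  have hq : √(h * b * Real.log b) ≤ 2 * (L * √(Real.log L)) := by
    have h5 : (h : ℝ) * b * Real.log b ≤ (2 * L) * L * Real.log L := by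
      have h6 : (h : ℝ) * b ≤ (2 * L) * L := mul_le_mul e1 e2 (by linarith) (by linarith)
      exact mul_le_mul h6 hlb hlb0 (by nlinarith)
    have h7 : (2 * L) * L * Real.log L ≤ (2 * (L * √(Real.log L))) ^ 2 := by
      have h8 : √(Real.log L) ^ 2 = Real.log L := Real.sq_sqrt (by linarith)
      have h9 : (2 * (L * √(Real.log L))) ^ 2 = 4 * L ^ 2 * Real.log L := by
        rw [mul_pow, mul_pow, h8]
        ring
      rw [h9]
      have h10 : 0 ≤ L ^ 2 * Real.log L := by positivity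
      nlinarith
    calc √(h * b * Real.log b) ≤ √((2 * (L * √(Real.log L))) ^ 2) :=
          Real.sqrt_le_sqrt (h5.trans h7)
      _ = 2 * (L * √(Real.log L)) := Real.sqrt_sq (by positivity)
  have h11 : L ≤ 2 * (L * √(Real.log L)) := by nlinarith
  nlinarith

end Pool.Agent.Helper1.TE
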