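import Pool.Agent.Helper1.TE.Defs
import Pool.Agent.Helper65.LinSpace.Arith3

/-!
# Tree evaluation in nondeterministic space: the algorithm
-/

namespace Pool.Agent.Helper1.TE

open Pool.Agent.Helper65.LinSpace (dig tab nrec ifz eq01 le01 lt01 capPow)
open Finset

/-! ### Gadgets -/

/-- A gadget: values `< K` are hidden in contents. `hd p` hides the value `p`, `sh p` is a shift,
`un p` undoes `sh p ∘ hd p`; `V` are the valid contents, `st` is the stack (a number in base `G`). -/
structure Gad (Z : Type) where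
  K : ℕ
  G : ℕ
  hd : ℕ → Z → Z
  sh : ℕ → Z → Z
  un : ℕ → Z → Option Z
  V : Z → Prop
  st : Z → ℕ

/-- The properties of a gadget; `sound` is the property of induced matchings. -/
structure Gad.OK {Z : Type} (g : Gad Z) : Prop where
  hd_V : ∀ p < g.K, ∀ z, g.V z → g.V (g.hd p z)
  sh_V : ∀ p < g.K, ∀ z, g.V z → g.V (g.sh p z)
  un_V : ∀ p < g.K, ∀ z z', g.V z → g.un p z = some z' → g.V z'
  ok : ∀ p < g.K, ∀ z, g.V z → g.un p (g.sh p (g.hd p z)) = some z
  sound : ∀ p < g.K, ∀ a < g.K, ∀ z, g.V z → (g.un p (g.sh a (g.hd p z))).isSome → a = p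
  one_le : 1 ≤ g.G
  st_hd : ∀ p < g.K, ∀ z, g.V z → g.st (g.hd p z) < g.G * (g.st z + 1)
  st_sh : ∀ p z, g.st (g.sh p z) = g.st z
  st_un : ∀ p z z', g.un p z = some z' → g.st z' ≤ g.st z

variable {Z : Type}

/-- The transformation with the code `T` for the value `v`: `0` is the test `tst v ≠ 0`, `1` is
`hd v`, the others are `un v`. -/
def app (g : Gad Z) (tst : ℕ → ℕ) (T v : ℕ) (z : Z) : Option Z :=
  if T = 0 then (if tst v = 0 then none else some z)
  else if T = 1 then some (g.hd v z) else g.un v z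

/-- The guessing step with the guesses `a, b` for the values of the children. -/
def guess (g : Gad Z) (tst : ℕ → ℕ) (f : ℕ → ℕ → ℕ) (T : ℕ) (i : Fin 3) (a b : ℕ)
    (C : Fin 3 → Z) : Option (Fin 3 → Z) :=
  (app g tst T (f a b) (C i)).map fun z =>
    Function.update (Function.update (Function.update C i z) (i + 1) (g.sh a (C (i + 1))))
      (i + 2) (g.sh b (C (i + 2)))

/-- The step at the time `τ < 5 ^ h` of the visit of the node `j` (of height `h`), which applies the
transformation `T` to the component `i`; `a, b` are the guesses, if guesses are needed. -/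
def opR (g : Gad Z) (tst : ℕ → ℕ) (leaf : ℕ → ℕ) (f : ℕ → ℕ → ℕ → ℕ) :
    (h j T : ℕ) → (i : Fin 3) → (τ a b : ℕ) → (Fin 3 → Z) → Option (Fin 3 → Z)
  | 0, j, T, i, _, _, _, C => (app g tst T (leaf j) (C i)).map (Function.update C i)
  | h + 1, j, T, i, τ, a, b, C =>
    if τ / 5 ^ h = 0 then opR g tst leaf f h (2 * j) 1 (i + 1) (τ % 5 ^ h) a b C
    else if τ / 5 ^ h = 1 then opR g tst leaf f h (2 * j + 1) 1 (i + 2) (τ % 5 ^ h) a b C
    else if τ / 5 ^ h = 2 then (if τ % 5 ^ h = 0 then guess g tst (f j) T i a b C else some C)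
    else if τ / 5 ^ h = 3 then opR g tst leaf f h (2 * j) 2 (i + 1) (τ % 5 ^ h) a b C
    else opR g tst leaf f h (2 * j + 1) 2 (i + 2) (τ % 5 ^ h) a b C

/-- `τ` is the time of a guess in a visit of height `h`. -/
def isG : (h τ : ℕ) → Prop
  | 0, _ => False
  | h + 1, τ => (τ / 5 ^ h = 2 ∧ τ % 5 ^ h = 0) ∨ (τ / 5 ^ h ≠ 2 ∧ isG h (τ % 5 ^ h))

/-- `Ch step K t s s'`: in `t` steps `s` can be transformed to `s'`; the step at the time `τ` with
the guesses `a, b < K` is `step τ a b`. -/
inductive Ch {S : Type} (step : ℕ → ℕ → ℕ → S → Option S) (K : ℕ) : ℕ → S → S → Prop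
  | zero (s : S) : Ch step K 0 s s
  | succ {t : ℕ} {s s' s'' : S} (a b : ℕ) (ha : a < K) (hb : b < K) (h : Ch step K t s s')
      (h' : step t a b s' = some s'') : Ch step K (t + 1) s s''

/-! ### The numeric gadget -/

section gadget

variable (c : ℕ → ℕ → ℕ) (m L R : ℕ)

/-- Squared norm of the vector of `p`. -/
def nrm (p : ℕ) : ℕ := ∑ i ∈ range m, c p i ^ 2

/-- Squared distance of the vectors of `p` and `q`. -/
def dst (p q : ℕ) : ℤ := ∑ i ∈ range m, ((c p i : ℤ) - c q i) ^ 2

/-- The functional of `p` modulo `L + R`. The digits of `X` in base `L + R` are the coordinates. -/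
def wN (p X : ℕ) : ℕ :=
  ((∑ i ∈ range m, 2 * c p i * dig (L + R) X i) + (L + R - 1) * dig (L + R) X m +
    (L - nrm c m p) * dig (L + R) X (m + 1)) % (L + R)

/-- The coordinates of the shift vector of `p`. -/
def vN (p i : ℕ) : ℕ := if i < m then c p i else if i = m then nrm c m p else 1

/-- Shift. -/
def shX (p X : ℕ) : ℕ := tab (L + R) (m + 2) fun i => (dig (L + R) X i + vN c m p i) % (L + R)

/-- Backward shift. -/
def ushX (p X : ℕ) : ℕ :=
  tab (L + R) (m + 2) fun i => (dig (L + R) X i + (L + R - vN c m p i)) % (L + R)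

/-- `X` with `y` added to the coordinate `m`. -/
def addm (X y : ℕ) : ℕ :=
  tab (L + R) (m + 2) fun i => if i = m then (dig (L + R) X m + y) % (L + R) else dig (L + R) X i

/-- The gadget of the vectors `c p`. -/
def numGad (K : ℕ) : Gad (ℕ × ℕ) where
  K := K
  G := (L + R) / R + 1
  hd p z := (addm m L R z.1 (R * (wN c m L R p z.1 / R)),
    ((L + R) / R + 1) * z.2 + wN c m L R p z.1 / R)
  sh p z := (shX c m L R p z.1, z.2)
  un p z :=
    if wN c m L R p (ushX c m L R p z.1) < R then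
      some (addm m L R (ushX c m L R p z.1) (L + R - R * (z.2 % ((L + R) / R + 1))),
        z.2 / ((L + R) / R + 1))
    else none
  V z := z.1 < (L + R) ^ (m + 2)
  st z := z.2

end gadget

/-- Conditions on the vectors. -/
structure CodeOK (c : ℕ → ℕ → ℕ) (m L R K : ℕ) : Prop where
  hL : 1 ≤ L
  hR : 1 ≤ R
  le : ∀ p < K, ∀ i < m, c p i ≤ L
  nrm_le : ∀ p < K, nrm c m p ≤ L
  le_dst : ∀ p < K, ∀ q < K, p ≠ q → (R : ℤ) ≤ dst c m p q
  dst_le : ∀ p < K, ∀ q < K, dst c m p q ≤ L

/-! ### The code -/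

/-- The `i`-th bit of the product of the polynomials `a` (of degree `< 3 b`) and `p` (of degree
`< b`) over the field of two elements. -/
def bitc (b a p i : ℕ) : ℕ :=
  (∑ t ∈ range b, dig 2 p t * (if t ≤ i then dig 2 a (i - t) else 0)) % 2

/-- The weight of the product. -/
def wt (b a p : ℕ) : ℕ := ∑ i ∈ range (4 * b), bitc b a p i

/-- The `i`-th symbol of `s` bits. -/
def sym (s b a p i : ℕ) : ℕ := ∑ t ∈ range s, bitc b a p (i * s + t) * 2 ^ t

/-- `a` is a good seed. -/
def Good (b a : ℕ) : Prop := a < 2 ^ (3 * b) ∧ ∀ p, 0 < p → p < 2 ^ b → b ≤ 4 * wt b a p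

/-- `1` if all products have weight at least `b / 4`; the power is cut off at `W + 1`. -/
def good01 (b W a : ℕ) : ℕ :=
  ifz (∑ p ∈ range (capPow 2 b W), lt01 0 p * lt01 (4 * wt b a p) b) 1 0

/-- The last good seed. -/
def seed (b W : ℕ) : ℕ :=
  nrec 0 (fun i r => ifz (good01 b W i) r i) (capPow 2 (3 * b) W)

/-! ### Parameters -/

/-- Bits of a symbol. -/
def sP (h b : ℕ) : ℕ := min b (Nat.sqrt (b * Nat.log 2 b / h) + 1)

/-- Number of symbols. -/
def mP (h b : ℕ) : ℕ := (4 * b + sP h b - 1) / sP h b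

/-- Distance. -/
def RP (h b : ℕ) : ℕ := (b + 4 * sP h b - 1) / (4 * sP h b)

/-- Bound for the squared norms; `W` is a bound for the power of two. -/
def LP (h b W : ℕ) : ℕ := mP h b * (capPow 2 (sP h b) W - 1) ^ 2

/-- `log₂` of the budget. -/
def EP (h b : ℕ) : ℕ :=
  (mP h b + 2) * (2 * sP h b + Nat.log 2 (mP h b + RP h b) + 1) + 3 * h + 3 * b + 2

/-! ### The time -/

/-- The digit number `l` from the top of the time `τ < 5 ^ h`. -/
def dgt (h τ l : ℕ) : ℕ := dig 5 τ (h - 1 - l)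

/-- `1` for the digits of right children. -/
def rgt (d : ℕ) : ℕ := eq01 d 1 + eq01 d 4

/-- `1` if there is no digit `2` among the digits `0, …, l`. -/
def no2 (h τ l : ℕ) : ℕ := nrec 1 (fun i r => r * (1 - eq01 (dgt h τ i) 2)) (l + 1)

/-- The level of the step. -/
def lvl (h τ : ℕ) : ℕ := ∑ l ∈ range h, no2 h τ l

/-- The node at the level `l`; `W` is a bound. -/
def nodeN (h τ l W : ℕ) : ℕ := nrec 1 (fun i r => min (2 * r + rgt (dgt h τ i)) W) l

/-- The component at the level `l`. -/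
def tgN (h τ l : ℕ) : ℕ := nrec 0 (fun i r => (r + 1 + rgt (dgt h τ i)) % 3) l

/-- The code of the transformation at the level `l`. -/
def trN (h τ l : ℕ) : ℕ := ifz l 0 (ifz (le01 (dgt h τ (l - 1)) 1) 2 1)

/-- The kind of the step: `0` leaf, `1` guess, `2` nothing. -/
def kindN (h τ : ℕ) : ℕ :=
  ifz (eq01 (lvl h τ) h) (ifz (τ % 5 ^ (h - 1 - lvl h τ)) 1 2) 0

end Pool.Agent.Helper1.TE
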