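import Pool.Agent.Helper1.TE.Goals2

/-!
Project TE (MP_8b4d68_lc): packet ED (the time).
-/

set_option autoImplicit false

namespace Pool.Agent.Helper1.TE.EDaux

open Pool.Agent.Helper1.TE
open Pool.Agent.Helper65.LinSpace (dig tab nrec ifz eq01 le01 lt01 capPow nrec_succ nrec_zero)
open Finset

def nodeG (j h τ l W : ℕ) : ℕ := nrec j (fun i r => min (2 * r + rgt (dgt h τ i)) W) l

def tgG (i0 h τ l : ℕ) : ℕ := nrec i0 (fun i r => (r + 1 + rgt (dgt h τ i)) % 3) l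

def trG (T h τ l : ℕ) : ℕ := ifz l T (ifz (le01 (dgt h τ (l - 1)) 1) 2 1)

/-- shift of the recursion -/
theorem nrec_shift (g : ℕ) (k : ℕ → ℕ → ℕ) (l : ℕ) :
    nrec g k (l + 1) = nrec (k 0 g) (fun i r => k (i + 1) r) l := by
  induction l with
  | zero => simp [nrec_succ]
  | succ l ih => rw [nrec_succ, ih, nrec_succ]

theorem nrec_congr (g : ℕ) (k k' : ℕ → ℕ → ℕ) (l : ℕ) (hk : ∀ i < l, ∀ r, k i r = k' i r) :
    nrec g k l = nrec g k' l := by
  induction l with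
  | zero => simp
  | succ l ih =>
    rw [nrec_succ, nrec_succ, ih (fun i hi r => hk i (by omega) r), hk l (by omega)]

theorem nrec_mul (c : ℕ) (p : ℕ → ℕ) (l : ℕ) :
    nrec c (fun i r => r * p i) l = c * nrec 1 (fun i r => r * p i) l := by
  induction l with
  | zero => simp
  | succ l ih => rw [nrec_succ, nrec_succ, ih, mul_assoc]

section step

variable (h τ : ℕ) (hτ : τ < 5 ^ (h + 1))

include hτ in
theorem div_lt : τ / 5 ^ h < 5 := by
  rw [Nat.div_lt_iff_lt_mul (by positivity), mul_comm, ← pow_succ]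
  exact hτ

theorem mod_lt : τ % 5 ^ h < 5 ^ h := Nat.mod_lt _ (by positivity)

include hτ in
theorem dgt_zero : dgt (h + 1) τ 0 = τ / 5 ^ h := by
  unfold dgt dig
  rw [show h + 1 - 1 - 0 = h by omega, Nat.mod_eq_of_lt (div_lt h τ hτ)]

theorem dig_mod (n i : ℕ) (hi : i < n) : dig 5 (τ % 5 ^ n) i = dig 5 τ i := by
  unfold dig
  obtain ⟨d, rfl⟩ : ∃ d, n = i + 1 + d := ⟨n - (i + 1), by omega⟩
  have e : 5 ^ (i + 1 + d) = 5 ^ i * (5 * 5 ^ d) := by rw [pow_add, pow_succ]; ring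
  rw [e, Nat.mod_mul_right_div_self, Nat.mod_mul_right_mod]

theorem dgt_succ (l : ℕ) (hl : l < h) : dgt (h + 1) τ (l + 1) = dgt h (τ % 5 ^ h) l := by
  unfold dgt
  rw [dig_mod τ h _ (by omega), show h + 1 - 1 - (l + 1) = h - 1 - l by omega]

include hτ in
theorem no2_zero : no2 (h + 1) τ 0 = 1 - eq01 (τ / 5 ^ h) 2 := by
  unfold no2
  rw [nrec_succ, nrec_zero, dgt_zero h τ hτ, one_mul]

include hτ in
theorem no2_succ (l : ℕ) (hl : l < h) :
    no2 (h + 1) τ (l + 1) = (1 - eq01 (τ / 5 ^ h) 2) * no2 h (τ % 5 ^ h) l := by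
  unfold no2
  rw [nrec_shift, dgt_zero h τ hτ, one_mul,
    nrec_congr _ _ (fun i r => r * (1 - eq01 (dgt h (τ % 5 ^ h) i) 2)) (l + 1)
      (fun i hi r => by rw [dgt_succ h τ i (by omega)]),
    nrec_mul _ (fun i => 1 - eq01 (dgt h (τ % 5 ^ h) i) 2)]

include hτ in
theorem lvl_succ : lvl (h + 1) τ = (1 - eq01 (τ / 5 ^ h) 2) * (1 + lvl h (τ % 5 ^ h)) := by
  unfold lvl
  rw [sum_range_succ', no2_zero h τ hτ, sum_congr rfl
    (fun l hl => no2_succ h τ hτ l (mem_range.mp hl)), ← mul_sum, mul_add, mul_one, add_comm]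

include hτ in
theorem lvl_two (h2 : τ / 5 ^ h = 2) : lvl (h + 1) τ = 0 := by
  rw [lvl_succ h τ hτ, h2]
  simp [eq01]

include hτ in
theorem lvl_ne (h2 : τ / 5 ^ h ≠ 2) : lvl (h + 1) τ = lvl h (τ % 5 ^ h) + 1 := by
  rw [lvl_succ h τ hτ]
  simp [eq01, h2, add_comm]

include hτ in
theorem kind_two (h2 : τ / 5 ^ h = 2) : kindN (h + 1) τ = if τ % 5 ^ h = 0 then 1 else 2 := by
  unfold kindN
  rw [lvl_two h τ hτ h2, show h + 1 - 1 - 0 = h by omega]
  simp [eq01, ifz]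

include hτ in
theorem kind_ne (h2 : τ / 5 ^ h ≠ 2) : kindN (h + 1) τ = kindN h (τ % 5 ^ h) := by
  unfold kindN
  rw [lvl_ne h τ hτ h2]
  set L := lvl h (τ % 5 ^ h)
  have e1 : eq01 (L + 1) (h + 1) = eq01 L h := by simp [eq01]
  have e2 : τ % 5 ^ (h + 1 - 1 - (L + 1)) = τ % 5 ^ h % 5 ^ (h - 1 - L) := by
    rw [Nat.mod_mod_of_dvd _ (pow_dvd_pow 5 (by omega)), show h + 1 - 1 - (L + 1) = h - 1 - L by omega]
  rw [e1, e2]

include hτ in
theorem node_succ (j l W : ℕ) (hl : l ≤ h) (hj : 2 * j + 1 ≤ W) :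
    nodeG j (h + 1) τ (l + 1) W = nodeG (2 * j + rgt (τ / 5 ^ h)) h (τ % 5 ^ h) l W := by
  unfold nodeG
  rw [nrec_shift, dgt_zero h τ hτ,
    nrec_congr _ _ (fun i r => min (2 * r + rgt (dgt h (τ % 5 ^ h) i)) W) l
      (fun i hi r => by rw [dgt_succ h τ i (by omega)])]
  have h1 : rgt (τ / 5 ^ h) ≤ 1 := by
    unfold rgt eq01
    split_ifs <;> omega
  rw [min_eq_left (by omega)]

include hτ in
theorem tg_succ (i0 l : ℕ) (hl : l ≤ h) :
    tgG i0 (h + 1) τ (l + 1) = tgG ((i0 + 1 + rgt (τ / 5 ^ h)) % 3) h (τ % 5 ^ h) l := by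
  unfold tgG
  rw [nrec_shift, dgt_zero h τ hτ,
    nrec_congr _ _ (fun i r => (r + 1 + rgt (dgt h (τ % 5 ^ h) i)) % 3) l
      (fun i hi r => by rw [dgt_succ h τ i (by omega)])]

include hτ in
theorem tr_succ (T l : ℕ) (hl : l ≤ h) :
    trG T (h + 1) τ (l + 1) = trG (ifz (le01 (τ / 5 ^ h) 1) 2 1) h (τ % 5 ^ h) l := by
  unfold trG
  rcases l with _ | l
  · rw [show 0 + 1 - 1 = 0 by omega, dgt_zero h τ hτ]
    simp [ifz]
  · rw [show l + 1 + 1 - 1 = l + 1 by omega, dgt_succ h τ l (by omega)]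
    simp [ifz]

end step

theorem tr_le (T h τ l : ℕ) (hT : T ≤ 2) : trG T h τ l ≤ 2 := by
  unfold trG ifz le01
  split_ifs <;> omega

theorem tg_lt (i0 h τ l : ℕ) (hi : i0 < 3) : tgG i0 h τ l < 3 := by
  unfold tgG
  cases l with
  | zero => simpa using hi
  | succ l => rw [nrec_succ]; exact Nat.mod_lt _ (by norm_num)

theorem node_bd (j h τ W : ℕ) (hW : 2 ^ h * (j + 1) ≤ W) (l : ℕ) (hl : l ≤ h) :
    2 ^ l * j ≤ nodeG j h τ l W ∧ nodeG j h τ l W < 2 ^ l * (j + 1) := by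
  induction l with
  | zero => simp [nodeG]
  | succ l ih =>
    obtain ⟨h1, h2⟩ := ih (by omega)
    have h3 : nodeG j h τ (l + 1) W = min (2 * nodeG j h τ l W + rgt (dgt h τ l)) W := rfl
    have h4 : rgt (dgt h τ l) ≤ 1 := by
      unfold rgt eq01
      split_ifs <;> omega
    have h5 : 2 ^ (l + 1) * (j + 1) ≤ 2 ^ h * (j + 1) :=
      Nat.mul_le_mul_right _ (Nat.pow_le_pow_right (by norm_num) hl)
    have h6 : 2 ^ (l + 1) * (j + 1) = 2 * (2 ^ l * (j + 1)) := by ring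
    have h7 : 2 ^ (l + 1) * j = 2 * (2 ^ l * j) := by ring
    rw [h3, min_eq_left (by omega), h6, h7]
    omega

theorem kind_zero (τ : ℕ) : kindN 0 τ = 0 := by simp [kindN, lvl, eq01, ifz]

theorem basic (h : ℕ) : ∀ τ < 5 ^ h, lvl h τ ≤ h ∧ (kindN h τ = 0 ↔ lvl h τ = h) ∧
    kindN h τ ≤ 2 ∧ (kindN h τ = 1 ↔ isG h τ) := by
  induction h with
  | zero =>
    intro τ _
    have h1 : lvl 0 τ = 0 := by simp [lvl]
    refine ⟨h1.le, by simp [kind_zero, h1], by simp [kind_zero], by simp [kind_zero, isG]⟩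
  | succ h ih =>
    intro τ hτ
    obtain ⟨i1, i2, i3, i4⟩ := ih _ (mod_lt h τ)
    by_cases h2 : τ / 5 ^ h = 2
    · rw [lvl_two h τ hτ h2, kind_two h τ hτ h2]
      refine ⟨by omega, ?_, ?_, ?_⟩
      · split_ifs <;> simp
      · split_ifs <;> omega
      · simp only [isG, h2]
        split_ifs with h3 <;> simp [h3]
    · rw [lvl_ne h τ hτ h2, kind_ne h τ hτ h2]
      refine ⟨by omega, ?_, i3, ?_⟩
      · rw [i2]; omega
      · rw [i4]
        simp [isG, h2]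

theorem op_eq {Z : Type} (g : Gad Z) (tst : ℕ → ℕ) (leaf : ℕ → ℕ) (f : ℕ → ℕ → ℕ → ℕ)
    (a b W : ℕ) (C : Fin 3 → Z) (h : ℕ) : ∀ (j T i0 τ : ℕ), i0 < 3 → τ < 5 ^ h →
    2 ^ h * (j + 1) ≤ W →
    opR g tst leaf f h j T (Fin.ofNat 3 i0) τ a b C =
    if kindN h τ = 0 then
      (app g tst (trG T h τ (lvl h τ)) (leaf (nodeG j h τ (lvl h τ) W))
        (C (Fin.ofNat 3 (tgG i0 h τ (lvl h τ))))).map
        (Function.update C (Fin.ofNat 3 (tgG i0 h τ (lvl h τ))))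
    else if kindN h τ = 1 then
      guess g tst (f (nodeG j h τ (lvl h τ) W)) (trG T h τ (lvl h τ))
        (Fin.ofNat 3 (tgG i0 h τ (lvl h τ))) a b C
    else some C := by
  induction h with
  | zero =>
    intro j T i0 τ hi hτ hW
    have h1 : lvl 0 τ = 0 := by simp [lvl]
    simp only [kind_zero, h1, if_true]
    simp [opR, trG, tgG, nodeG, ifz]
  | succ h ih =>
    intro j T i0 τ hi hτ hW
    have hr := div_lt h τ hτ
    have hm := mod_lt h τ
    have hL := (basic h _ hm).1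
    have h7 : 2 ^ (h + 1) * (j + 1) = 2 ^ h * (2 * (j + 1)) := by ring
    have h8 : 2 ^ h * (2 * (j + 1)) ≥ 1 * (2 * (j + 1)) :=
      Nat.mul_le_mul_right _ Nat.one_le_two_pow
    have h9 : 2 * j + 1 ≤ W := by omega
    have h10 : rgt (τ / 5 ^ h) ≤ 1 := by
      unfold rgt eq01
      split_ifs <;> omega
    by_cases h2 : τ / 5 ^ h = 2
    · rw [lvl_two h τ hτ h2, kind_two h τ hτ h2]
      simp only [opR, h2]
      by_cases h3 : τ % 5 ^ h = 0
      · simp [h3, trG, tgG, nodeG, ifz]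
      · simp [h3]
    · rw [lvl_ne h τ hτ h2, kind_ne h τ hτ h2, node_succ h τ hτ j _ W hL h9,
        tg_succ h τ hτ i0 _ hL, tr_succ h τ hτ T _ hL,
        ← ih (2 * j + rgt (τ / 5 ^ h)) (ifz (le01 (τ / 5 ^ h) 1) 2 1)
          ((i0 + 1 + rgt (τ / 5 ^ h)) % 3) (τ % 5 ^ h) (Nat.mod_lt _ (by norm_num)) hm
          (by
            have h11 : 2 ^ h * (2 * j + rgt (τ / 5 ^ h) + 1) ≤ 2 ^ h * (2 * (j + 1)) :=
              Nat.mul_le_mul_left _ (by omega)
            omega)]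
      have e1 : Fin.ofNat 3 i0 + 1 = Fin.ofNat 3 ((i0 + 1) % 3) := by
        interval_cases i0 <;> rfl
      have e2 : Fin.ofNat 3 i0 + 2 = Fin.ofNat 3 ((i0 + 1 + 1) % 3) := by
        interval_cases i0 <;> rfl
      generalize hq : τ / 5 ^ h = r at *
      interval_cases r
      · simp only [opR, hq, e1]
        simp [rgt, eq01, le01, ifz]
      · simp only [opR, hq, e2]
        simp [rgt, eq01, le01, ifz]
      · exact absurd rfl h2
      · simp only [opR, hq, e1]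
        simp [rgt, eq01, le01, ifz]
      · simp only [opR, hq, e2]
        simp [rgt, eq01, le01, ifz]

end Pool.Agent.Helper1.TE.EDaux

namespace Pool.Agent.Helper1.TE

theorem gED : GoalED := by
  intro Z g tst leaf f h τ a b W C hτ hW
  obtain ⟨b1, b2, b3, b4⟩ := EDaux.basic h τ hτ
  have n1 := EDaux.node_bd 1 h τ W (by rw [← pow_succ]; exact hW) _ b1
  have n2 : EDaux.nodeG 1 h τ (lvl h τ) W = nodeN h τ (lvl h τ) W := rfl
  rw [n2] at n1
  refine ⟨⟨b1, b2, by simpa using n1.1, by simpa [pow_succ] using n1.2,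
    EDaux.tr_le 0 h τ _ (by norm_num), EDaux.tg_lt 0 h τ _ (by norm_num), b3, b4⟩, ?_⟩
  exact EDaux.op_eq g tst leaf f a b W C h 1 0 0 τ (by norm_num) hτ
    (by rw [← pow_succ]; exact hW)

end Pool.Agent.Helper1.TE
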