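import Pool.Agent.Helper1.TE.Goals

/-!
PROJECT TE, GD.
-/

namespace Pool.Agent.Helper1.TE

open Pool.Agent.Helper65.LinSpace (dig tab tab_lt dig_lt)

theorem gGD : GoalGD := by
  intro hGA hGC c m L R K hc
  have hP : 0 < L + R := by have := hc.hR; omega
  have hR : 0 < R := hc.hR
  have hadd : ∀ X y, addm m L R X y < (L + R) ^ (m + 2) := by
    intro X y
    refine tab_lt fun i _ => ?_
    split_ifs
    · exact Nat.mod_lt _ hP
    · exact dig_lt hP _ _
  refine ⟨?_, ?_, ?_, ?_, ?_, ?_, ?_, ?_, ?_⟩
  · intro p _ z _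
    exact hadd _ _
  · intro p _ z _
    exact tab_lt fun i _ => Nat.mod_lt _ hP
  · intro p _ z z' _ h
    simp only [numGad] at h ⊢
    split_ifs at h
    simp only [Option.some.injEq] at h
    rw [← h]
    exact hadd _ _
  · intro p hp z hz
    exact hGA c m L R K hc p hp z hz
  · intro p hp a ha z hz h
    exact hGC c m L R K hc p hp a ha z hz h
  · exact Nat.le_add_left 1 _
  · intro p _ z _
    show ((L + R) / R + 1) * z.2 + wN c m L R p z.1 / R < ((L + R) / R + 1) * (z.2 + 1)
    have h1 : wN c m L R p z.1 < L + R := Nat.mod_lt _ hP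
    have h2 : wN c m L R p z.1 / R ≤ (L + R) / R := Nat.div_le_div_right h1.le
    rw [Nat.mul_add, Nat.mul_one]
    omega
  · intro p z
    rfl
  · intro p z z' h
    simp only [numGad] at h ⊢
    split_ifs at h
    simp only [Option.some.injEq] at h
    rw [← h]
    exact Nat.div_le_self _ _

end Pool.Agent.Helper1.TE
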