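import Pool.Agent.Helper1.TE.XP
import Pool.Agent.Helper6.LinSpace.Compile

/-!
# The Turing machine of a numeric machine
-/

namespace Pool.Agent.Helper1.TE

open Pool.Agent.Helper65.LinSpace (Dir inputSym inputMove Prog Run Ctx LS)
open Pool.Agent.Helper6.Compile (Sy tapeOf val single)

/-- A counter program as a program with input head. -/
def XP.ofProg : Prog → XP
  | .skip => .skip
  | .inc i => .inc i
  | .seq p q => .seq (ofProg p) (ofProg q)
  | .loop i p => .loop i (ofProg p)

/-- The programs `P 0`, `P 1` compute one step of the numeric machine with the guessed bit `0`, `1`: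
they transform the registers `Ctx.enc a` into the registers of the next state, with its acceptance
bit in the register `o` behind them. -/
def Body {α : Type} [Ctx α] (N : NumMach α) (P : ℕ → XP) (o c : ℕ) : Prop :=
  Ctx.ar α ≤ o ∧ ∀ (w : List Bool) (a : α) (γ m B n : ℕ), γ < 2 → n ≤ w.length + 1 →
    (∀ i, Ctx.enc a i ≤ m) → (m + 2) ^ c ≤ B → ∃ n' ≤ w.length + 1,
      XRun w B (P γ) (Ctx.enc a, n)
        (Function.update (Ctx.enc (N.nx w a γ)) o (N.acc (N.nx w a γ)), n')

/-- The control states of the Turing machine. -/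
inductive XCtl (P : ℕ → XP)
  | init
  | top
  | run0 (a : XSt (P 0))
  | run1 (a : XSt (P 1))
  | chk
  | chk2
  | acc

theorem finite_XSt : (p : XP) → Finite (XSt p)
  | .skip => inferInstanceAs (Finite Unit)
  | .inc _ => inferInstanceAs (Finite (Fin 3))
  | .seq p q => by
      have := finite_XSt p
      have := finite_XSt q
      exact inferInstanceAs (Finite (XSt p ⊕ XSt q))
  | .loop _ p => by
      have := finite_XSt p
      exact inferInstanceAs (Finite (Fin 4 ⊕ XSt p))
  | .mv _ => inferInstanceAs (Finite Unit)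
  | .rd p₀ p₁ p₂ => by
      have := finite_XSt p₀
      have := finite_XSt p₁
      have := finite_XSt p₂
      exact inferInstanceAs (Finite (Unit ⊕ (XSt p₀ ⊕ (XSt p₁ ⊕ XSt p₂))))
  | .whl p => by
      have := finite_XSt p
      exact inferInstanceAs (Finite (Unit ⊕ XSt p))

theorem finite_XCtl (P : ℕ → XP) : Finite (XCtl P) := by
  have := finite_XSt (P 0)
  have := finite_XSt (P 1)
  refine Finite.of_surjective (fun x : Fin 5 ⊕ (XSt (P 0) ⊕ XSt (P 1)) =>
    match x with
    | .inl 0 => .init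
    | .inl 1 => .top
    | .inl 2 => .chk
    | .inl 3 => .chk2
    | .inl 4 => .acc
    | .inr (.inl a) => .run0 a
    | .inr (.inr a) => .run1 a) ?_
  rintro (_ | _ | a | a | _ | _ | _)
  exacts [⟨.inl 0, rfl⟩, ⟨.inl 1, rfl⟩, ⟨.inr (.inl a), rfl⟩, ⟨.inr (.inr a), rfl⟩,
    ⟨.inl 2, rfl⟩, ⟨.inl 3, rfl⟩, ⟨.inl 4, rfl⟩]

/-- Exit of the check of the acceptance bit. -/
def chkStep {P : ℕ → XP} {k : ℕ} (o : Fin k) (s : Fin k → Sy) :
    Sy → XCtl P × Dir × (Fin k → Sy × Dir)
  | .bit true => (.acc, .stay, fun j => (s j, .stay))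
  | x => (.top, .stay, single o s x .left)

/-- The Turing machine: it writes marks on the tapes, then it repeats: choose `P 0` or `P 1`, run the
program, look at the acceptance bit. -/
def xTM (P : ℕ → XP) {k : ℕ} (o : Fin k) (h0 : ∀ a, xtp (P 0) a < k) (h1 : ∀ a, xtp (P 1) a < k) :
    NTM k where
  State := XCtl P
  Sym := Sy
  finState := finite_XCtl P
  finSym := inferInstance
  start := .init
  blank := .blank
  accept := {.acc}
  step q y s :=
    match q with
    | .init => {(.top, .stay, fun _ => (.mark, .stay))}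
    | .top => {(.run0 (xentry (P 0)), .stay, fun j => (s j, .stay)),
        (.run1 (xentry (P 1)), .stay, fun j => (s j, .stay))}
    | .run0 a => {((xact (P 0) a y (s ⟨xtp (P 0) a, h0 a⟩)).1.elim .chk .run0,
        (xact (P 0) a y (s ⟨xtp (P 0) a, h0 a⟩)).2.1,
        single ⟨xtp (P 0) a, h0 a⟩ s (xact (P 0) a y (s ⟨xtp (P 0) a, h0 a⟩)).2.2.1
          (xact (P 0) a y (s ⟨xtp (P 0) a, h0 a⟩)).2.2.2)}
    | .run1 a => {((xact (P 1) a y (s ⟨xtp (P 1) a, h1 a⟩)).1.elim .chk .run1,
        (xact (P 1) a y (s ⟨xtp (P 1) a, h1 a⟩)).2.1,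
        single ⟨xtp (P 1) a, h1 a⟩ s (xact (P 1) a y (s ⟨xtp (P 1) a, h1 a⟩)).2.2.1
          (xact (P 1) a y (s ⟨xtp (P 1) a, h1 a⟩)).2.2.2)}
    | .chk => {(.chk2, .stay, single o s (s o) .right)}
    | .chk2 => {chkStep o s (s o)}
    | .acc => ∅

/-- Configurations with tapes indexed by numbers. -/
def cfgX (P : ℕ → XP) {k : ℕ} (o : Fin k) (h0 : ∀ a, xtp (P 0) a < k)
    (h1 : ∀ a, xtp (P 1) a < k) (q : XCtl P) (n : ℕ) (T : ℕ → ℤ → Sy) (H : ℕ → ℤ) :
    (xTM P o h0 h1).Cfg :=
  { state := q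
    inp := n
    tape := fun j => T j
    head := fun j => H j }

/-- `c'` is the only possible successor of `c`, and its heads are within `K`. -/
def Det {k : ℕ} (M : NTM k) (w : List Bool) (K : ℤ) (c c' : M.Cfg) : Prop :=
  (∀ d, M.Next w c d ↔ d = c') ∧ ∀ i, |c'.head i| ≤ K

/-- The state of the control after the choice of `γ`. -/
def entX (P : ℕ → XP) (γ : ℕ) : XCtl P :=
  if γ = 0 then .run0 (xentry (P 0)) else .run1 (xentry (P 1))

/-- The lists `ls` represent the registers `e`, with lengths at most `W`. -/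
def Rep (ls : ℕ → List Bool) (e : ℕ → ℕ) (W : ℕ) : Prop :=
  ∀ i, val (ls i) = e i ∧ (ls i).length ≤ W

/-- Steps of a numeric machine. -/
abbrev NStep {α : Type} (N : NumMach α) (w : List Bool) : α → α → Prop :=
  fun x x' => ∃ γ < 2, x' = N.nx w x γ

/-- From no reachable state both guesses can lead to acceptance. -/
def NUnamb {α : Type} (N : NumMach α) (w : List Bool) : Prop :=
  ∀ x y y', N.Reach w x → N.acc x = 0 → Relation.ReflTransGen (NStep N w) (N.nx w x 0) y →
    N.acc y ≠ 0 → Relation.ReflTransGen (NStep N w) (N.nx w x 1) y' → N.acc y' ≠ 0 → False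

end Pool.Agent.Helper1.TE
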