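import Pool.Agent.Helper1.TE.Goals2
import Pool.Agent.Helper1.TE.XTM

/-!
# PROJECT TE (MP_8b4d68_lc): goals, part 3: linear space functions, compilation to Turing machines
-/

namespace Pool.Agent.Helper1.TE

open Pool.Agent.Helper65.LinSpace (dig tab nrec ifz eq01 le01 lt01 capPow Ctx LS Run Prog Dir
  inputSym inputMove)
open Pool.Agent.Helper6.Compile (Sy tapeOf val single)
open Finset

/-! ### G. Linear space functions

`LS` and its rules (all `fun_prop`) are in `Helper65/LinSpace/Typed.lean`, `Arith.lean`,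
`Arith2.lean`. A goal of the form `LS (fun x : ℕ × ℕ => F x.1 x.2)` gives
`LS f → LS g → LS (fun a => F (f a) (g a))` by `LS.comp` and `fun_prop`. -/

/-- LCF. For each coordinate `i < Ctx.ar β` the value is `ifz (c a) (enc (f a) i) (enc (g a) i)`
(`LS.ifz`, `LS.nat_iff`; a coordinate of an `LS` function is an `LS` function with values in `ℕ`). -/
def GoalLCF : Prop := ∀ {α β : Type} [Ctx α] [Ctx β] (c : α → ℕ) (f g : α → β), LS c → LS f →
  LS g → LS (fun a => cif (c a) (f a) (g a))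

/-- LCT. `LS.nrec` with the bound `W`. -/
def GoalLCT : Prop := ∀ {α : Type} [Ctx α] (W q m : α → ℕ) (d : α → ℕ → ℕ), LS W → LS q → LS m →
  LS (fun p : α × ℕ => d p.1 p.2) → LS (fun a => ctab (W a) (q a) (m a) (d a))

/-- LSD. `bitc`: `LS.sumMod` (the `if` is an `ifz` of `le01 t i`); `wt ≤ 4 b` (`LS.sum_le`);
`good01`: `LS.sum_le`; `seed`: `LS.nrec` with the bound `capPow 2 (3 b) W`. -/
def GoalLSD : Prop := LS (fun x : ℕ × ℕ × ℕ × ℕ => bitc x.1 x.2.1 x.2.2.1 x.2.2.2) ∧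
  LS (fun x : ℕ × ℕ => seed x.1 x.2)

/-- LPA. Directly by `fun_prop` after unfolding. -/
def GoalLPA : Prop := LS (fun x : ℕ × ℕ => sP x.1 x.2) ∧ LS (fun x : ℕ × ℕ => mP x.1 x.2) ∧
  LS (fun x : ℕ × ℕ => RP x.1 x.2) ∧ LS (fun x : ℕ × ℕ => EP x.1 x.2) ∧
  LS (fun x : ℕ × ℕ × ℕ => LP x.1 x.2.1 x.2.2)

/-- LTI. `LS.nrec` with the bounds `1` (`no2`), `W + 1` (`nodeN`), `3` (`tgN`); `lvl`: `LS.sum_le`;
`τ % 5 ^ n`: `LS.modPow`. -/
def GoalLTI : Prop := LS (fun x : ℕ × ℕ => lvl x.1 x.2) ∧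
  LS (fun x : ℕ × ℕ × ℕ × ℕ => nodeN x.1 x.2.1 x.2.2.1 x.2.2.2) ∧
  LS (fun x : ℕ × ℕ × ℕ => tgN x.1 x.2.1 x.2.2) ∧ LS (fun x : ℕ × ℕ × ℕ => trN x.1 x.2.1 x.2.2) ∧
  LS (fun x : ℕ × ℕ => kindN x.1 x.2)

/-- LVE. `cM` is a `ctab` (so `≤ W`); the sums in `wN` (`nrm`, `2 * c * dig`) by `LS.sum_le` with the
bounds `W ^ 2`, `2 * W * (PM + X)` (`dig q X i ≤ X` or `< q`); `shM, ushM, addM` are `ctab`;
`vN`: the `if`s are `ifz` of `lt01`, `eq01`. -/
def GoalLVE : Prop := GoalLCT → GoalLSD → GoalLPA →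
  LS (fun x : ℕ × ℕ × ℕ => PM x.1 x.2.1 x.2.2) ∧ LS (fun x : ℕ × ℕ × ℕ => GM x.1 x.2.1 x.2.2) ∧
  LS (fun x : (ℕ × ℕ × ℕ) × ℕ × ℕ => wM x.1.1 x.1.2.1 x.1.2.2 x.2.1 x.2.2) ∧
  LS (fun x : (ℕ × ℕ × ℕ) × ℕ × ℕ => shM x.1.1 x.1.2.1 x.1.2.2 x.2.1 x.2.2) ∧
  LS (fun x : (ℕ × ℕ × ℕ) × ℕ × ℕ => ushM x.1.1 x.1.2.1 x.1.2.2 x.2.1 x.2.2) ∧
  LS (fun x : (ℕ × ℕ × ℕ) × ℕ × ℕ => addM x.1.1 x.1.2.1 x.1.2.2 x.2.1 x.2.2)

/-- LBG. `getC`, `setC`, `hdM`, `apM`, `apT` first (with LCF), then `bigT`, `bigC`; `g / 2 ^ b`: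
`LS.divPow`, `g % 2 ^ b`: `LS.modPow`. Here `x.1 = (h, b, W)`, `x.2 = (τ, g, v, C)`. -/
def GoalLBG : Prop := GoalLCF → GoalLPA → GoalLTI → GoalLVE →
  LS (fun x : (ℕ × ℕ × ℕ) × ℕ × ℕ × ℕ × C3 =>
    bigC x.1.1 x.1.2.1 x.1.2.2 x.2.1 x.2.2.1 x.2.2.2.1 x.2.2.2.2) ∧
  ∀ tst : ℕ → ℕ, LS tst → LS (fun x : (ℕ × ℕ × ℕ) × ℕ × ℕ × C3 =>
    bigT x.1.1 x.1.2.1 x.1.2.2 tst x.2.1 x.2.2.1 x.2.2.2)

/-- LNX. `blkM` (cut off powers: `LS.capPow`), `lenM`, `addrM`, `gqM`, `nextN`, `nextM` with LCF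
(the `match`-free definitions are nested `cif`; prove `LS` of each branch as a separate `have`);
`(τ + 1) / 5 ^ h`: `LS.divPow`. -/
def GoalLNX : Prop := GoalLCF → GoalLPA → GoalLTI → GoalLVE → GoalLBG →
  ∀ (ok : ℕ → ℕ → ℕ) (tst : ℕ → ℕ) (mal : ℕ), LS (fun x : ℕ × ℕ => ok x.1 x.2) → LS tst →
    LS (machM ok tst mal).addr ∧
    LS (fun p : Sta × ℕ × ℕ => (machM ok tst mal).next p.1 p.2.1 p.2.2) ∧
    LS (machM ok tst mal).acc

/-! ### H. Compilation to Turing machines -/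

/-- XSIM. Adaptation of `Pool.Agent.Helper6.Compile.sim` (`Helper6/LinSpace/Mach.lean`): induction on
`XRun`. The cases `skip, inc, seq, loop` are the same (the position of the input head does not
change in `inc` and in the tests of `loop`); `mv`, the first step of `rd` and of `whl` write back
the symbol read on tape `0`. For `rd` and `whl` the letter is `inputSym w n`. -/
def GoalXSIM : Prop := ∀ (w : List Bool) (B W : ℕ) (p : XP) (x x' : (ℕ → ℕ) × ℕ), B < 2 ^ W →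
  XRun w B p x x' → ∀ ls : ℕ → List Bool, Rep ls x.1 W → ∃ ls', Rep ls' x'.1 W ∧
    XSteps w p W (some (xentry p), x.2, (fun i => tapeOf (ls i)), fun _ => 0)
      (none, x'.2, (fun i => tapeOf (ls' i)), fun _ => 0)

/-- XPR. Induction on `Run`. -/
def GoalXPR : Prop := ∀ (w : List Bool) (B : ℕ) (p : Prog) (s s' : ℕ → ℕ) (n : ℕ), Run B p s s' →
  XRun w B (XP.ofProg p) (s, n) (s', n)

/-- XBODY. Let `r = Ctx.ar α`; register `r`: code of the letter, `r + 1`: guessed bit, `r + 2`: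
always zero, `j = r + 3` and later: free. `Pool.Agent.Helper9.LinSpace.E2.prog`
(`Helper9/LinSpace/Compile.lean`) gives programs for the `E2` functions of the coordinates.
`P γ` = (`inc (r+1)` if `γ = 1`); address into the register `j` (`ρ i = i` for `i < r`, `r + 2`
otherwise); `mv left`, `whl (mv left)` (now the input head is at `0`: also from `n + 1`, where
nothing is read); `loop j (mv right)`, `mv right` (now it is at `min (addr + 1) (w.length + 1)`, and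
the letter is `w[addr]?`); `rd skip (inc r) (seq (inc r) (inc r))` (the code of the letter); the
coordinates of the next state into `j, …, j + r - 1` one after the other (environment `enc (a, y, γ)`:
`ρ i = i` for `i < r + 2`, `r + 2` otherwise); the acceptance bit of the new state into
`o = j + r` (`ρ i = j + i` for `i < r`, `r + 2` otherwise); clear the registers `0, …, r + 1` and
move `j + i` to `i` for `i < r` (as in `run_clear`, `run_addTo` of Helper9). All values are bounded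
by a power of `m + 2` (`growth` in Helper9). -/
def GoalXBODY : Prop := GoalXPR → ∀ {α : Type} [Ctx α] (N : NumMach α), LS N.addr →
  LS (fun p : α × ℕ × ℕ => N.next p.1 p.2.1 p.2.2) → LS N.acc → (∀ a, N.acc a ≤ 1) →
  ∃ (P : ℕ → XP) (o c : ℕ), Body N P o c

/-- T1 (one round). `run0`, `run1` follow `XSteps` (the steps of `xTM` in these states are
singletons, adapt `run_phase`, `next_single` of `Helper6/LinSpace/Compile.lean`); then `chk`, `chk2`:
the first symbol of the tape `o` is `bit true` iff the register is `1`; for `0` the head goes back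
and the state is `top`; the register `o` then is `0 = Ctx.enc a' o` (`Ctx.enc_of_le`). -/
def GoalT1 : Prop := GoalXSIM → ∀ {α : Type} [Ctx α] (N : NumMach α) (P : ℕ → XP) (o c : ℕ),
  Body N P o c → (∀ a, N.acc a ≤ 1) → ∀ (k : ℕ) (o' : Fin k), (o' : ℕ) = o →
  ∀ (h0 : ∀ a, xtp (P 0) a < k) (h1 : ∀ a, xtp (P 1) a < k) (w : List Bool) (a : α)
    (γ n m W : ℕ) (ls : ℕ → List Bool), γ < 2 → n ≤ w.length + 1 → (∀ i, Ctx.enc a i ≤ m) →
    (m + 2) ^ c < 2 ^ W → Rep ls (Ctx.enc a) W →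
    (N.acc (N.nx w a γ) = 0 → ∃ n' ≤ w.length + 1, ∃ ls', Rep ls' (Ctx.enc (N.nx w a γ)) W ∧
      Relation.ReflTransGen (Det (xTM P o' h0 h1) w (W + 1))
        (cfgX P o' h0 h1 (entX P γ) n (fun i => tapeOf (ls i)) fun _ => 0)
        (cfgX P o' h0 h1 .top n' (fun i => tapeOf (ls' i)) fun _ => 0)) ∧
    (N.acc (N.nx w a γ) ≠ 0 → ∃ c₂ : (xTM P o' h0 h1).Cfg, c₂.state = XCtl.acc ∧
      Relation.ReflTransGen (Det (xTM P o' h0 h1) w (W + 1))
        (cfgX P o' h0 h1 (entX P γ) n (fun i => tapeOf (ls i)) fun _ => 0) c₂)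

/-- The conclusion of T1. -/
def Round : Prop := ∀ {α : Type} [Ctx α] (N : NumMach α) (P : ℕ → XP) (o c : ℕ),
  Body N P o c → (∀ a, N.acc a ≤ 1) → ∀ (k : ℕ) (o' : Fin k), (o' : ℕ) = o →
  ∀ (h0 : ∀ a, xtp (P 0) a < k) (h1 : ∀ a, xtp (P 1) a < k) (w : List Bool) (a : α)
    (γ n m W : ℕ) (ls : ℕ → List Bool), γ < 2 → n ≤ w.length + 1 → (∀ i, Ctx.enc a i ≤ m) →
    (m + 2) ^ c < 2 ^ W → Rep ls (Ctx.enc a) W →
    (N.acc (N.nx w a γ) = 0 → ∃ n' ≤ w.length + 1, ∃ ls', Rep ls' (Ctx.enc (N.nx w a γ)) W ∧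
      Relation.ReflTransGen (Det (xTM P o' h0 h1) w (W + 1))
        (cfgX P o' h0 h1 (entX P γ) n (fun i => tapeOf (ls i)) fun _ => 0)
        (cfgX P o' h0 h1 .top n' (fun i => tapeOf (ls' i)) fun _ => 0)) ∧
    (N.acc (N.nx w a γ) ≠ 0 → ∃ c₂ : (xTM P o' h0 h1).Cfg, c₂.state = XCtl.acc ∧
      Relation.ReflTransGen (Det (xTM P o' h0 h1) w (W + 1))
        (cfgX P o' h0 h1 (entX P γ) n (fun i => tapeOf (ls i)) fun _ => 0) c₂)

/-- DT. Induction on the computation from `c` to `x`: as long as it is on the deterministic segment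
the next configuration is the next one of the segment. -/
def GoalDT : Prop := ∀ {k : ℕ} (M : NTM k) (w : List Bool) (K : ℤ) (c e x : M.Cfg),
  Relation.ReflTransGen (Det M w K) c e → Relation.ReflTransGen (M.Next w) c x →
  (Relation.ReflTransGen (Det M w K) c x ∧ Relation.ReflTransGen (Det M w K) x e) ∨
    Relation.ReflTransGen (M.Next w) e x

/-- T2A. Let `S` bound the reachable states, `W = (S + 2) * c + 1`, so `(2 ^ S + 2) ^ c < 2 ^ W`.
Invariant of reachable configurations `x` of the Turing machine: `x` is the initial configuration,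
or a top configuration (state `top`, work heads `0`, tapes `tapeOf (ls i)` with `Rep ls (enc a) W`) of
some reachable `a` with `acc a = 0`, or on a deterministic segment of Round which starts from such a
top configuration; it is preserved: the first step leads to the top configuration of `N.start`
(`ls i = []`, the tape with one mark is `tapeOf []`), from a top configuration to the two starts of
segments, from the end of a segment (top configuration, or state `acc`, which has no successor).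
So heads are within `W + 1`, and if `acc` is reached then it is the end of a segment with
`acc (nx a γ) ≠ 0`. Conversely, by induction on numeric reachability, for a path of states with
`acc = 0` the top configurations are reachable, and the first state with `acc ≠ 0` gives `acc`. -/
def GoalT2A : Prop := Round → GoalDT → ∀ {α : Type} [Ctx α] (N : NumMach α) (P : ℕ → XP) (o c : ℕ),
  Body N P o c → (∀ a, N.acc a ≤ 1) → (∀ i, Ctx.enc N.start i = 0) → N.acc N.start = 0 →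
  ∀ (k : ℕ) (o' : Fin k), (o' : ℕ) = o →
  ∀ (h0 : ∀ a, xtp (P 0) a < k) (h1 : ∀ a, xtp (P 1) a < k) (w : List Bool) (S : ℕ),
    (∀ a, N.Reach w a → ∀ i, Ctx.enc a i < 2 ^ S) →
    ((xTM P o' h0 h1).Accepts w ↔ ∃ a, N.Reach w a ∧ N.acc a ≠ 0) ∧
    (xTM P o' h0 h1).Within w (((S + 2) * c + 2 : ℕ) : ℝ)

/-- T2B (unambiguity). Two accepting computations `c, c'` of lengths `t, t'`: by induction on
`i ≤ min t t'`: `c i = c' i`. The only state with two successors is `top`. If `c i` is in the state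
`top` it is a top configuration (see T2A) of a reachable `a` with `acc a = 0`, and if the two
computations choose differently there, then from the starts of both segments (`γ = 0, 1`) the state
`acc` is reached, so from `nx a 0` and from `nx a 1` a state with `acc ≠ 0` is reachable (small
lemma: if from the top configuration of `a` an accepting configuration is reachable, then a state
with `acc ≠ 0` is reachable from `a`; induction on the length of the computation, with DT and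
Round): this contradicts `NUnamb`. In all other states the step set has at most one element.
`t = t'`, because only the last configurations are accepting. -/
def GoalT2B : Prop := Round → GoalDT → ∀ {α : Type} [Ctx α] (N : NumMach α) (P : ℕ → XP) (o c : ℕ),
  Body N P o c → (∀ a, N.acc a ≤ 1) → (∀ i, Ctx.enc N.start i = 0) → N.acc N.start = 0 →
  ∀ (k : ℕ) (o' : Fin k), (o' : ℕ) = o →
  ∀ (h0 : ∀ a, xtp (P 0) a < k) (h1 : ∀ a, xtp (P 1) a < k) (w : List Bool) (S : ℕ),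
    (∀ a, N.Reach w a → ∀ i, Ctx.enc a i < 2 ^ S) → NUnamb N w →
    (xTM P o' h0 h1).Unambiguous w

/-- COM (the compilation theorem). XBODY gives `P, o, c`; `k` is larger than `o` and all `xtp`
(finitely many: `finite_XSt`, see `dlinspace_of_prog`); T2A, T2B. -/
def GoalCOM : Prop := GoalXPR → GoalXBODY → Round → GoalDT → GoalT2A → GoalT2B →
  ∀ {α : Type} [Ctx α] (N : NumMach α), LS N.addr →
  LS (fun p : α × ℕ × ℕ => N.next p.1 p.2.1 p.2.2) → LS N.acc → (∀ a, N.acc a ≤ 1) →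
  (∀ i, Ctx.enc N.start i = 0) → N.acc N.start = 0 →
  ∃ (k : ℕ) (M : NTM k) (c : ℕ), ∀ (w : List Bool) (S : ℕ),
    (∀ a, N.Reach w a → ∀ i, Ctx.enc a i < 2 ^ S) → NUnamb N w →
    (M.Accepts w ↔ ∃ a, N.Reach w a ∧ N.acc a ≠ 0) ∧ M.Within w ((c * (S + 1) : ℕ) : ℝ) ∧
    M.Unambiguous w

/-! ### I. Assembly -/

/-- LG1. The languages. `w ∈ TreeEval D` iff some `h, b` have `Full` (with the indicator `ok` of
`D`) and root value `1` (`w = 1^h 0 1^b 0 v` iff `Pre`, zeros at `h`, `h + 1 + b`, and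
`v = w.drop (h + b + 2)`; lengths). The complement: FU (the parameters are unique). -/
def GoalLG1 : Prop := GoalFU → ∀ (ok : ℕ → ℕ → ℕ) (D : Set (ℕ × ℕ)),
  (∀ h b, (h, b) ∈ D ↔ ok h b ≠ 0) →
  TreeEval D = LangM ok (fun v => eq01 v 1) 0 ∧ (TreeEval D)ᶜ = LangM ok (fun v => 1 - eq01 v 1) 1

/-- AS1 (asymptotics, all parameters). `n = w.length ≥ 4 ^ b`, `≥ 2 ^ h`, so `h log 2 ≤ log n`,
`2 b log 2 ≤ log n`; `b ≤ log n` (as `2 log 2 > 1`), so `log b ≤ log (log n)`, and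
`log n ≥ 2 log 2 > 1.3`, so `log (log n) ≥ log 1.3 > 1/5`, `√ ≥ 2/5`. So
`h + b + √(h b log b) ≤ C log n √(log log n)`. -/
def GoalAS1 : Prop := ∃ C : ℝ, 0 ≤ C ∧ ∀ (ok : ℕ → ℕ → ℕ) (w : List Bool) (h b : ℕ),
  Full ok w h b → (h : ℝ) + b + √(h * b * Real.log b) ≤
    C * (Real.log w.length * √(Real.log (Real.log w.length)))

/-- AS2 (asymptotics, `b log₂ b ≤ D h`). `log b ≤ log 2 * (Nat.log 2 b + 1) ≤ 2 Nat.log 2 b + 1`, so
`h b log b ≤ 2 D h² + h b`. -/
def GoalAS2 : Prop := ∀ D : ℕ, ∃ C : ℝ, 0 ≤ C ∧ ∀ (ok : ℕ → ℕ → ℕ) (w : List Bool) (h b : ℕ),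
  Full ok w h b → b * Nat.log 2 b ≤ D * h → (h : ℝ) + b + √(h * b * Real.log b) ≤
    C * Real.log w.length

/-- AS3 (short words and malformed words). For `n ≥ 3`: `log n √(log log n) ≥ log n / 4`
(`log log 3 > 1/16`), finitely many other `n`. -/
def GoalAS3 : Prop := ∃ C : ℝ, 0 ≤ C ∧ ∀ n : ℕ,
  ((Nat.log 2 (n + 1) + 5 : ℕ) : ℝ) ≤ C * (Real.log n * √(Real.log (Real.log n)) + 1) ∧
  ((Nat.log 2 (n + 1) + 5 : ℕ) : ℝ) ≤ C * (Real.log n + 1)

/-- Everything about the numeric machine. -/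
def MachineOK : Prop := ∀ (ok : ℕ → ℕ → ℕ) (tst : ℕ → ℕ) (mal : ℕ),
  LS (fun x : ℕ × ℕ => ok x.1 x.2) → LS tst →
  ∃ (k : ℕ) (M : NTM k) (c : ℕ), ∀ w : List Bool,
    (M.Accepts w ↔ w ∈ LangM ok tst mal) ∧ M.Unambiguous w ∧
    (∀ h b, Full ok w h b → M.Within w ((c * (SpB h b + 1) : ℕ) : ℝ)) ∧
    ((¬ ∃ h b, Full ok w h b) → M.Within w ((c * (Nat.log 2 (w.length + 1) + 6) : ℕ) : ℝ))

/-- MOK. The hypotheses are the conclusions of the other goals: compilation, LNX, FS, FC, FM, FUN,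
FB, FB2 (`2 n + 9 < 2 ^ (Nat.log 2 (n + 1) + 5)`). -/
def GoalMOK : Prop :=
  (∀ {α : Type} [Ctx α] (N : NumMach α), LS N.addr →
    LS (fun p : α × ℕ × ℕ => N.next p.1 p.2.1 p.2.2) → LS N.acc → (∀ a, N.acc a ≤ 1) →
    (∀ i, Ctx.enc N.start i = 0) → N.acc N.start = 0 →
    ∃ (k : ℕ) (M : NTM k) (c : ℕ), ∀ (w : List Bool) (S : ℕ),
      (∀ a, N.Reach w a → ∀ i, Ctx.enc a i < 2 ^ S) → NUnamb N w →
      (M.Accepts w ↔ ∃ a, N.Reach w a ∧ N.acc a ≠ 0) ∧ M.Within w ((c * (S + 1) : ℕ) : ℝ) ∧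
      M.Unambiguous w) →
  (∀ (ok : ℕ → ℕ → ℕ) (tst : ℕ → ℕ) (mal : ℕ), LS (fun x : ℕ × ℕ => ok x.1 x.2) → LS tst →
    LS (machM ok tst mal).addr ∧
    LS (fun p : Sta × ℕ × ℕ => (machM ok tst mal).next p.1 p.2.1 p.2.2) ∧
    LS (machM ok tst mal).acc) →
  (∀ (ok : ℕ → ℕ → ℕ) (tst : ℕ → ℕ) (mal : ℕ) (w : List Bool)
    (x : Sta), (machM ok tst mal).Reach w x →
      Inv ok tst mal w x ∧ ((machM ok tst mal).acc x ≠ 0 → w ∈ LangM ok tst mal)) →
  (∀ (ok : ℕ → ℕ → ℕ) (tst : ℕ → ℕ) (mal : ℕ) (w : List Bool) (h b : ℕ), Full ok w h b →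
    tst (rootValue h b (w.drop (h + b + 2))) ≠ 0 → (machM ok tst mal).Reach w accS) →
  (∀ (ok : ℕ → ℕ → ℕ) (tst : ℕ → ℕ) (mal : ℕ)
    (w : List Bool), mal ≠ 0 → (¬ ∃ h b, Full ok w h b) → (machM ok tst mal).Reach w accS) →
  (∀ (ok : ℕ → ℕ → ℕ) (tst : ℕ → ℕ) (mal : ℕ) (w : List Bool), NUnamb (machM ok tst mal) w) →
  (∀ (ok : ℕ → ℕ → ℕ) (tst : ℕ → ℕ) (mal : ℕ) (w : List Bool) (h b : ℕ) (x : Sta),
    Full ok w h b → Inv ok tst mal w x → ∀ i, Ctx.enc x i < 2 ^ SpB h b) →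
  (∀ (ok : ℕ → ℕ → ℕ) (tst : ℕ → ℕ) (mal : ℕ) (w : List Bool) (x : Sta),
    (¬ ∃ h b, Full ok w h b) → Inv ok tst mal w x → ∀ i, Ctx.enc x i ≤ 2 * w.length + 9) →
  MachineOK

/-- FIN (the theorem). MachineOK for `ok = 1` and `ok = le01 (b log₂ b) (C h)`, `tst v = eq01 v 1`,
`mal = 0` and `tst v = 1 - eq01 v 1`, `mal = 1`; LG1, PS, AS1, AS2, AS3. -/
def GoalFIN : Prop := MachineOK → GoalFU → GoalLG1 → GoalPS → GoalAS1 → GoalAS2 → GoalAS3 →
  (TreeEval Set.univ ∈ USPACE (fun n => Real.log n * √(Real.log (Real.log n))) ∧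
    (TreeEval Set.univ)ᶜ ∈ USPACE (fun n => Real.log n * √(Real.log (Real.log n)))) ∧
  ∀ C : ℕ, TreeEval {x | x.2 * Nat.log 2 x.2 ≤ C * x.1} ∈ USPACE (fun n => Real.log n) ∧
    (TreeEval {x | x.2 * Nat.log 2 x.2 ≤ C * x.1})ᶜ ∈ USPACE (fun n => Real.log n)

end Pool.Agent.Helper1.TE
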