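import Mathlib

/-!
# Branching programs for the tree evaluation problem
-/

namespace Pool.Agent.Helper1.TE

/-- An input of the tree evaluation problem with values `0, …, k - 1`: leaf values and a table for
each inner node (nodes are numbered, the children of `j` are `2 j` and `2 j + 1`). -/
structure TInput (k : ℕ) where
  leaf : ℕ → Fin k
  tab : ℕ → Fin k → Fin k → Fin k

/-- The value of the node `j`, if its height above the leaves is `h`. -/
def TInput.val {k : ℕ} (I : TInput k) : ℕ → ℕ → Fin k
  | 0, j => I.leaf j
  | h + 1, j => I.tab j (I.val h (2 * j)) (I.val h (2 * j + 1))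

/-- Labels of the states of a branching program: queries to the value of the leaf `j` or to the
entry `x, y` of the table of the inner node `j`, or final states with an output. -/
inductive Lab (k : ℕ)
  | leaf (j : ℕ)
  | node (j : ℕ) (x y : Fin k)
  | final (v : Fin k)

/-- A nondeterministic `k`-way branching program: finitely many states with labels, and edges
labelled with values; `edge s v s'` says that there is an edge with label `v` from `s` to `s'`. -/
structure BP (k : ℕ) where
  S : Type
  fin : Fintype S
  start : S
  lab : S → Lab k
  edge : S → Fin k → S → Prop

namespace BP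

variable {k : ℕ} (B : BP k) (h : ℕ) (I : TInput k)

/-- The edges which are activated by the input `I`. -/
def Step (s s' : B.S) : Prop :=
  match B.lab s with
  | .leaf j => B.edge s (I.leaf j) s'
  | .node j x y => B.edge s (I.tab j x y) s'
  | .final _ => False

/-- `c 0, …, c t` is a computation which ends in a final state with output `v`. -/
def Comp (t : ℕ) (c : ℕ → B.S) (v : Fin k) : Prop :=
  c 0 = B.start ∧ (∀ i < t, B.Step I (c i) (c (i + 1))) ∧ B.lab (c t) = .final v

/-- All queries concern the tree of height `h` (leaves `2 ^ h ≤ j < 2 ^ (h + 1)`, inner nodes
`1 ≤ j < 2 ^ h`). -/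
def Proper : Prop :=
  (∀ s j, B.lab s = .leaf j → 2 ^ h ≤ j ∧ j < 2 ^ (h + 1)) ∧
    ∀ s j x y, B.lab s = .node j x y → 1 ≤ j ∧ j < 2 ^ h

/-- The program computes the value of the root: on every input some computation ends in a final
state, and all computations which end in a final state have the value of the root as output. -/
def Computes : Prop :=
  ∀ I : TInput k, (∃ t c v, B.Comp I t c v) ∧ ∀ t c v, B.Comp I t c v → v = I.val h 1

/-- On every input at most one computation ends in a final state. -/
def Unambiguous : Prop :=
  ∀ (I : TInput k) t c v t' c' v', B.Comp I t c v → B.Comp I t' c' v' →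
    t = t' ∧ ∀ i ≤ t, c i = c' i

/-- Thrifty: in every computation which ends in a final state, the table of an inner node is queried
only at the values of its children. -/
def Thrifty : Prop :=
  ∀ (I : TInput k) t c v, B.Comp I t c v → ∀ i < t, ∀ j x y, B.lab (c i) = .node j x y →
    x = I.val (h - Nat.log 2 j - 1) (2 * j) ∧ y = I.val (h - Nat.log 2 j - 1) (2 * j + 1)

/-- The number of states. -/
def size : ℕ := @Fintype.card B.S B.fin

end BP

end Pool.Agent.Helper1.TE
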