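import Pool.Agent.Helper1.TE.Goals2
import Pool.Agent.Helper1.TE.BP

/-!
# PROJECT TE (MP_8b4d68_lc): goals, part 4: branching programs
-/

namespace Pool.Agent.Helper1.TE

open Finset

/-- The inner node of a guess time `τ`, and the height of its children. -/
def gN : (h j τ : ℕ) → ℕ × ℕ
  | 0, j, _ => (j, 0)
  | h + 1, j, τ =>
    if τ / 5 ^ h = 0 then gN h (2 * j) (τ % 5 ^ h)
    else if τ / 5 ^ h = 1 then gN h (2 * j + 1) (τ % 5 ^ h)
    else if τ / 5 ^ h = 2 then (j, h)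
    else if τ / 5 ^ h = 3 then gN h (2 * j) (τ % 5 ^ h)
    else gN h (2 * j + 1) (τ % 5 ^ h)

/-- The leaf of a time `τ` which is no guess time (the leftmost leaf below the node of the guess, if
nothing happens). -/
def lN : (h j τ : ℕ) → ℕ
  | 0, j, _ => j
  | h + 1, j, τ =>
    if τ / 5 ^ h = 0 then lN h (2 * j) (τ % 5 ^ h)
    else if τ / 5 ^ h = 1 then lN h (2 * j + 1) (τ % 5 ^ h)
    else if τ / 5 ^ h = 2 then 2 ^ (h + 1) * j
    else if τ / 5 ^ h = 3 then lN h (2 * j) (τ % 5 ^ h)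
    else lN h (2 * j + 1) (τ % 5 ^ h)

/-- THR (thriftiness). As UNQ (see `Pool/Agent/Helper44/TE`): in a complete chain the guesses at a
guess time are the values of the children of its node. Induction on `h`; in the block `2` the
existence of the blocks `3, 4` forces them (`sound`). -/
def GoalTHR : Prop := GoalCHS → GoalALG → ∀ {Z : Type} (g : Gad Z), g.OK → ∀ (tst : ℕ → ℕ)
  (leaf : ℕ → ℕ) (f : ℕ → ℕ → ℕ → ℕ), (∀ j, leaf j < g.K) → (∀ j a b, f j a b < g.K) →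
  ∀ (h j T : ℕ) (i : Fin 3) (C D E F : Fin 3 → Z) (t a b : ℕ), t < 5 ^ h → isG h t →
    (∀ k, g.V (C k)) → a < g.K → b < g.K →
    Ch (opR g tst leaf f h j T i) g.K t C D → opR g tst leaf f h j T i t a b D = some E →
    Ch (fun τ => opR g tst leaf f h j T i (t + 1 + τ)) g.K (5 ^ h - (t + 1)) E F →
    a = nval leaf f (gN h j t).2 (2 * (gN h j t).1) ∧
    b = nval leaf f (gN h j t).2 (2 * (gN h j t).1 + 1)

/-- LOC (one query per step). At a guess time the step depends on the input only through the entry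
`a, b` of the table of `gN`, at the other times only through the leaf `lN` (at the times where
nothing happens on nothing). Induction on `h`. Second part: bounds (`2 ^ lev ≤ j < 2 ^ (lev + 1)`):
`gN` is an inner node with the right height, `lN` a leaf. -/
def GoalLOC : Prop :=
  (∀ {Z : Type} (g : Gad Z) (tst : ℕ → ℕ) (leaf leaf' : ℕ → ℕ) (f f' : ℕ → ℕ → ℕ → ℕ)
    (h j T : ℕ) (i : Fin 3) (τ a b : ℕ) (C : Fin 3 → Z),
    (isG h τ → f (gN h j τ).1 a b = f' (gN h j τ).1 a b) →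
    (¬ isG h τ → leaf (lN h j τ) = leaf' (lN h j τ)) →
    opR g tst leaf f h j T i τ a b C = opR g tst leaf' f' h j T i τ a b C) ∧
  (∀ {Z : Type} (g : Gad Z) (tst : ℕ → ℕ) (leaf : ℕ → ℕ) (f : ℕ → ℕ → ℕ → ℕ)
    (h j T : ℕ) (i : Fin 3) (τ a b a' b' : ℕ) (C : Fin 3 → Z), ¬ isG h τ →
    opR g tst leaf f h j T i τ a b C = opR g tst leaf f h j T i τ a' b' C) ∧
  ∀ h l j τ : ℕ, τ < 5 ^ h → 2 ^ l ≤ j → j < 2 ^ (l + 1) →
    (2 ^ (l + h) ≤ lN h j τ ∧ lN h j τ < 2 ^ (l + h + 1)) ∧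
    (isG h τ → 1 ≤ (gN h j τ).1 ∧ (gN h j τ).1 < 2 ^ (l + h) ∧
      (gN h j τ).2 = l + h - Nat.log 2 (gN h j τ).1 - 1)

/-- BPC (the program of a gadget). Let `Q` be a finite type of contents: `dec : Q → Z` injective, and
every valid content with `st < G ^ (h + 1)` is in its range. States: `start`; `final v`; and
`(c, τ, D, a, b)` with `c : Fin k` (guessed root value), `τ : Fin (5 ^ h)`, `D : Fin 3 → Q`,
`a b : Fin k`; number `1 + k + k * 5 ^ h * (card Q) ^ 3 * k ^ 2`. Label of `(c, τ, D, a, b)`: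
`node (gN h 1 τ).1 a b` if `isG h τ`, otherwise `leaf (lN h 1 τ)`; of `start`: `leaf (2 ^ h)`. Edge
with label `v`: from `start` to all `(c, 0, D₀, a, b)` (`D₀` = three times `z₀`) such that
`isG h 0 ∨ (a = 0 ∧ b = 0)`; from `(c, τ, D, a, b)` to all `(c, τ + 1, D', a', b')` with
`isG h (τ + 1) ∨ (a' = 0 ∧ b' = 0)` and to `final c` if `τ + 1 = 5 ^ h`, where
`opR g (tst_c) (fun _ => v) (fun _ _ _ => v) h 1 0 0 τ a b D = some D'`, `tst_c v = 1` iff `v = c`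
(`0 : Fin k` exists because `2 ≤ k`). By LOC the step of `opR` for an input `I` is the step with
all leaves and entries equal to the answer `v` of the query. So the computations which end in the
final state `c` are the complete chains (ALG: they exist iff `c` is the value of the root; ALB:
the contents stay in `Q`), by UNQ they are unique, and by THR thrifty. -/
def GoalBPC : Prop := GoalCHS → GoalALG → GoalALB → GoalUNQ → GoalTHR → GoalLOC →
  ∀ {Z : Type} (g : Gad Z), g.OK → ∀ (h k : ℕ) (z₀ : Z), 1 ≤ h → 2 ≤ k → g.K = k → g.V z₀ →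
    g.st z₀ = 0 → ∀ (Q : Type) [Fintype Q] (dec : Q → Z), Function.Injective dec →
    (∀ z, g.V z → g.st z < g.G ^ (h + 1) → ∃ q, dec q = z) →
    ∃ B : BP k, B.Proper h ∧ B.Computes h ∧ B.Unambiguous ∧ B.Thrifty h ∧
      B.size = 1 + k + k * 5 ^ h * Fintype.card Q ^ 3 * k ^ 2

/-- BPK. The gadget `gadM h b W` with fewer values: `K := k ≤ 2 ^ b` (`Gad.OK` for a smaller `K` is
weaker). -/
def GoalBPK : Prop := ∀ {Z : Type} (g : Gad Z), g.OK → ∀ k ≤ g.K, ({ g with K := k } : Gad Z).OK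

/-- BPS (size). With `b = Nat.clog 2 k`: `1 + k + k ^ 3 * 5 ^ h * (2 ^ SpB h b) ^ 3 ≤
2 ^ (3 b + 3 h + 3 SpB h b + 2)`; `b ≤ 3 log k` for `k ≥ 2`, `log b ≤ log (log k) + 2`, and if
`log k < 1.1` (`k ≤ 3`) the root is bounded by `h + 1` times a constant. So PS gives the bound. -/
def GoalBPS : Prop := (∃ C : ℝ, ∀ h b : ℕ, 1 ≤ h → 1 ≤ b →
    (SpB h b : ℝ) ≤ C * (h + b + √(h * b * Real.log b))) →
  ∃ C : ℝ, ∀ h k : ℕ, 1 ≤ h → 2 ≤ k →
    ((1 + k + k * 5 ^ h * (2 ^ SpB h (Nat.clog 2 k)) ^ 3 * k ^ 2 : ℕ) : ℝ) ≤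
      Real.exp (C * (h + Real.log k + √(h * Real.log k * Real.log (Real.log k))))

/-- BPF (the theorem). BPC for `gadM h b (2 ^ EP h b)` with `K := k`, `b = Nat.clog 2 k`
(`k ≤ 2 ^ b`, `1 ≤ b`), `z₀ = (0, 0)`, `Q = Fin (PM ^ (mP + 2)) × Fin (GM ^ (h + 1))`,
`card Q ≤ 2 ^ EP * 2 ^ ((2 s + 5) (h + 1)) ≤ 2 ^ SpB h b` (PB, PG), and BPS. -/
def GoalBPF : Prop := GoalPB →
  (∀ h b : ℕ, 1 ≤ h → 1 ≤ b → (gadM h b (2 ^ EP h b)).OK) →
  (∀ h b : ℕ, 1 ≤ h → 1 ≤ b → GM h b (2 ^ EP h b) ≤ 2 ^ (2 * sP h b + 5)) → GoalBPK →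
  (∀ {Z : Type} (g : Gad Z), g.OK → ∀ (h k : ℕ) (z₀ : Z), 1 ≤ h → 2 ≤ k → g.K = k → g.V z₀ →
    g.st z₀ = 0 → ∀ (Q : Type) [Fintype Q] (dec : Q → Z), Function.Injective dec →
    (∀ z, g.V z → g.st z < g.G ^ (h + 1) → ∃ q, dec q = z) →
    ∃ B : BP k, B.Proper h ∧ B.Computes h ∧ B.Unambiguous ∧ B.Thrifty h ∧
      B.size = 1 + k + k * 5 ^ h * Fintype.card Q ^ 3 * k ^ 2) →
  (∃ C : ℝ, ∀ h k : ℕ, 1 ≤ h → 2 ≤ k →
    ((1 + k + k * 5 ^ h * (2 ^ SpB h (Nat.clog 2 k)) ^ 3 * k ^ 2 : ℕ) : ℝ) ≤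
      Real.exp (C * (h + Real.log k + √(h * Real.log k * Real.log (Real.log k))))) →
  ∃ C : ℝ, ∀ h k : ℕ, 1 ≤ h → 2 ≤ k → ∃ B : BP k, B.Proper h ∧ B.Computes h ∧ B.Unambiguous ∧
    B.Thrifty h ∧
    (B.size : ℝ) ≤ Real.exp (C * (h + Real.log k + √(h * Real.log k * Real.log (Real.log k))))

end Pool.Agent.Helper1.TE
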