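import Pool.Agent.Helper1.TE.Goals

/-!
# PROJECT TE (MP_8b4d68_lc): goals, part 2: the numeric machine
-/

namespace Pool.Agent.Helper1.TE

open Pool.Agent.Helper65.LinSpace (dig tab nrec ifz eq01 le01 lt01 capPow Ctx)
open Finset

/-! ### E. Numeric functions and the abstract algorithm -/

/-- CT. The sum is a partial sum of `tab`, which is `< q ^ i ≤ W`, so nothing is cut off. -/
def GoalCT : Prop := ∀ (W q m : ℕ) (d : ℕ → ℕ), (∀ i < m, d i < q) → q ^ m ≤ W →
  ctab W q m d = tab q m d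

/-- EA. `CT` with `q = 2` (`bitc < 2`). -/
def GoalEA : Prop := GoalCT → ∀ h b W : ℕ, 2 ^ sP h b ≤ W →
  cM h b W = sym (sP h b) b (seed b W)

/-- EB. `CT` for the three functions (digits are `< PM`: `Nat.mod_lt`, `dig_lt`). -/
def GoalEB : Prop := GoalCT → ∀ h b W : ℕ, 0 < PM h b W → PM h b W ^ (mP h b + 2) ≤ W →
  (∀ p X, shM h b W p X = shX (cM h b W) (mP h b) (LP h b W) (RP h b) p X) ∧
  (∀ p X, ushM h b W p X = ushX (cM h b W) (mP h b) (LP h b W) (RP h b) p X) ∧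
  (∀ X y, addM h b W X y = addm (mP h b) (LP h b W) (RP h b) X y)

/-- The gadget of the machine. -/
def gadM (h b W : ℕ) : Gad (ℕ × ℕ) :=
  numGad (cM h b W) (mP h b) (LP h b W) (RP h b) (2 ^ b)

/-- EOK. The gadget of the machine is a gadget: EA, CO (with `seed b W`, CSD), GD; `mP`, `RP`, `LP`
are the parameters of CO by definition and PB. -/
def GoalEOK : Prop := GoalCT → GoalEA → GoalPB → GoalCE → GoalCSD → GoalCL → GoalCD → GoalCO →
  GoalGA → GoalGC → GoalGD → ∀ h b : ℕ, 1 ≤ h → 1 ≤ b → (gadM h b (2 ^ EP h b)).OK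

/-- EC. Unfold everything and use EB. -/
def GoalEC : Prop := GoalCT → GoalEB → ∀ h b W : ℕ, 0 < PM h b W →
  PM h b W ^ (mP h b + 2) ≤ W →
  (∀ p z, (gadM h b W).sh p z = (shM h b W p z.1, z.2)) ∧
  (∀ tst T v z, T ≤ 2 → app (gadM h b W) tst T v z =
    if apT h b W tst T v z = 0 then none else some (apM h b W T v z))

/-- ED (the time). Generalise: `nodeN` with the start value `j`, `tgN` with the start value `i`, and
the code `T` for level `0`, for arbitrary `h`; induction on `h`. If the top digit of `τ < 5 ^ (h+1)`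
is `r = τ / 5 ^ h` and `τ' = τ % 5 ^ h`, then `dgt (h+1) τ 0 = r`, `dgt (h+1) τ (l+1) = dgt h τ' l`,
`lvl (h+1) τ = 0` if `r = 2` and `1 + lvl h τ'` otherwise, and the node, component and code for
`h + 1` are those of the child visit for `h` (start values `2 j + rgt r`, `(i + 1 + rgt r) % 3`, code
`1` for `r ≤ 1` and `2` for `r ≥ 3`). The nodes at level `l` are `< 2 ^ (l + 1) ≤ 2 ^ (h + 1) ≤ W`,
so nothing is cut off. If `r = 2` the kind is `1` for `τ' = 0` and `2` otherwise. -/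
def GoalED : Prop := ∀ {Z : Type} (g : Gad Z) (tst : ℕ → ℕ) (leaf : ℕ → ℕ) (f : ℕ → ℕ → ℕ → ℕ)
  (h τ a b W : ℕ) (C : Fin 3 → Z), τ < 5 ^ h → 2 ^ (h + 1) ≤ W →
  (lvl h τ ≤ h ∧ (kindN h τ = 0 ↔ lvl h τ = h) ∧ 2 ^ lvl h τ ≤ nodeN h τ (lvl h τ) W ∧
    nodeN h τ (lvl h τ) W < 2 ^ (lvl h τ + 1) ∧ trN h τ (lvl h τ) ≤ 2 ∧ tgN h τ (lvl h τ) < 3 ∧
    kindN h τ ≤ 2 ∧ (kindN h τ = 1 ↔ isG h τ)) ∧
  opR g tst leaf f h 1 0 0 τ a b C =
    if kindN h τ = 0 then
      (app g tst (trN h τ (lvl h τ)) (leaf (nodeN h τ (lvl h τ) W))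
        (C (Fin.ofNat 3 (tgN h τ (lvl h τ))))).map
        (Function.update C (Fin.ofNat 3 (tgN h τ (lvl h τ))))
    else if kindN h τ = 1 then
      guess g tst (f (nodeN h τ (lvl h τ) W)) (trN h τ (lvl h τ)) (Fin.ofNat 3 (tgN h τ (lvl h τ)))
        a b C
    else some C

/-- EE. From EC and ED; `toF (setC C i z) = update (toF C) (Fin.ofNat 3 i) z` and
`getC C i = toF C (Fin.ofNat 3 i)` for `i < 3`; `Fin.ofNat 3 ((i + 1) % 3) = Fin.ofNat 3 i + 1`. -/
def GoalEE : Prop := GoalCT → GoalEB → GoalEC → GoalED → ∀ (tst : ℕ → ℕ) (leaf : ℕ → ℕ)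
  (f : ℕ → ℕ → ℕ → ℕ) (h b W τ g v : ℕ) (C : C3), 0 < PM h b W →
  PM h b W ^ (mP h b + 2) ≤ W → τ < 5 ^ h → 2 ^ (h + 1) ≤ W →
  (kindN h τ = 0 → v = leaf (nodeN h τ (lvl h τ) W)) →
  (kindN h τ = 1 → v = f (nodeN h τ (lvl h τ) W) (g / 2 ^ b) (g % 2 ^ b)) →
  opR (gadM h b W) tst leaf f h 1 0 0 τ (g / 2 ^ b) (g % 2 ^ b) (toF C) =
    if bigT h b W tst τ v C = 0 then none else some (toF (bigC h b W τ g v C))

/-! ### F. Single steps of the machine -/

/-- The word starts with `h` ones, a zero, `b` ones. -/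
def Pre (w : List Bool) (h b : ℕ) : Prop :=
  (∀ i < h, w[i]? = some true) ∧ w[h]? = some false ∧ ∀ i < b, w[h + 1 + i]? = some true

/-- The header is complete and has good parameters. -/
def Hdr (ok : ℕ → ℕ → ℕ) (w : List Bool) (h b : ℕ) : Prop :=
  Pre w h b ∧ w[h + 1 + b]? = some false ∧ 1 ≤ h ∧ 1 ≤ b ∧ ok h b ≠ 0

/-- Also the length is right. -/
def Full (ok : ℕ → ℕ → ℕ) (w : List Bool) (h b : ℕ) : Prop :=
  Hdr ok w h b ∧ w.length = h + b + 2 + blocks h b * b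

/-- Leaf values (as in `rootValue`). -/
def leafV (h b : ℕ) (v : List Bool) (j : ℕ) : ℕ := word v ((j - 2 ^ h) * b) b

/-- Tables (as in `rootValue`). -/
def tabV (h b : ℕ) (v : List Bool) (j x y : ℕ) : ℕ :=
  word v ((2 ^ h + (j - 1) * 4 ^ b + (2 ^ b * x + y)) * b) b

/-- The steps of the algorithm on the data of `w`. -/
def opM (tst : ℕ → ℕ) (h b : ℕ) (w : List Bool) :
    ℕ → ℕ → ℕ → (Fin 3 → ℕ × ℕ) → Option (Fin 3 → ℕ × ℕ) :=
  opR (gadM h b (2 ^ EP h b)) tst (leafV h b (w.drop (h + b + 2)))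
    (tabV h b (w.drop (h + b + 2))) h 1 0 0

/-- The components at the start. -/
def C0 : C3 := ((0, 0), (0, 0), (0, 0))

/-- The language of the machine: the well formed words whose root value passes the test, and all
other words if `mal ≠ 0`. -/
def LangM (ok : ℕ → ℕ → ℕ) (tst : ℕ → ℕ) (mal : ℕ) : Set (List Bool) :=
  {w | (∃ h b, Full ok w h b ∧ tst (rootValue h b (w.drop (h + b + 2))) ≠ 0) ∨
    (mal ≠ 0 ∧ ¬ ∃ h b, Full ok w h b)}

/-- FU. `Full` determines the parameters: `h` is the first place of a zero, `h + 1 + b` the second. Also: if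
`Hdr ok w h b` and `Full ok w h' b'` then they are equal; if `Pre w h b` and `Full ok w h' b'` then
`h = h'` and `b ≤ b'`; if the first `h` letters are ones and `Full ok w h' b'` then `h ≤ h'`. -/
def GoalFU : Prop := ∀ (ok : ℕ → ℕ → ℕ) (w : List Bool) (h b h' b' : ℕ), Full ok w h' b' →
  (Full ok w h b → h = h' ∧ b = b') ∧ (Hdr ok w h b → h = h' ∧ b = b') ∧
  (Pre w h b → h = h' ∧ b ≤ b') ∧ ((∀ i < h, w[i]? = some true) → h ≤ h')

/-- The invariant of the machine. -/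
inductive Inv (ok : ℕ → ℕ → ℕ) (tst : ℕ → ℕ) (mal : ℕ) (w : List Bool) : Sta → Prop
  | rej : Inv ok tst mal w rejS
  | m0 (h : ℕ) (h1 : ∀ i < h, w[i]? = some true) : Inv ok tst mal w (hdr 0 h 0 0 0 0)
  | m1 (h b : ℕ) (h1 : Pre w h b) : Inv ok tst mal w (hdr 1 h b 0 0 0)
  | m2 (h b u : ℕ) (h1 : Hdr ok w h b) (hu : u ≤ h) (h2 : ∀ t < u, 2 ^ t < w.length) :
      Inv ok tst mal w (hdr 2 h b u (2 ^ u) 0)
  | m3 (h b u : ℕ) (h1 : Hdr ok w h b) (hu : u ≤ 2 * b) (h2 : 2 ^ h < w.length)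
      (h3 : ∀ t < u, 2 ^ t < w.length) : Inv ok tst mal w (hdr 3 h b u (2 ^ h) (2 ^ u))
  | m4 (h b : ℕ) (h1 : Hdr ok w h b) (h2 : 2 ^ h < w.length) (h3 : 4 ^ b < w.length) :
      Inv ok tst mal w (hdr 4 h b 0 (2 ^ h) (4 ^ b))
  | m5 (h b : ℕ) (h1 : Hdr ok w h b) (h2 : 2 ^ h < w.length) (h3 : 4 ^ b < w.length)
      (h4 : w.length ≤ h + b + 2 + blocks h b * b) : Inv ok tst mal w (hdr 5 h b 0 (2 ^ h) (4 ^ b))
  | m6 (h b u : ℕ) (h1 : Full ok w h b) (hu : u ≤ EP h b) :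
      Inv ok tst mal w (hdr 6 h b u (2 ^ u) 0)
  | m7 (h b u τ g v : ℕ) (C : C3) (h1 : Full ok w h b) (hτ : τ < 5 ^ h) (hu : u ≤ 3 * b)
      (hg : g < 2 ^ min u (2 * b))
      (hv : v = word (w.drop (h + b + 2)) (blkM h b (2 ^ EP h b) τ g * b) (u - 2 * b))
      (hC : Ch (opM tst h b w) (2 ^ b) τ (toF C0) (toF C)) :
      Inv ok tst mal w (mainS h b u (2 ^ EP h b) τ g v C)
  | m8 (h1 : w ∈ LangM ok tst mal) : Inv ok tst mal w accS

/-- FI0. Modes 0 to 6, 8, 9. If `γ = 1` then `gqM x = 0`, so the next state is `rejS` or `x`. If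
`γ = 0` unfold `nextN`, `addrM`, `codeB` case by case. Mode 2: the letter at `2 ^ u` exists iff
`2 ^ u < w.length` (`List.getElem?_eq_none_iff`). Modes 4, 5:
`lenM h b (2 ^ h) (4 ^ b) = h + b + 2 + blocks h b * b`. If the machine finds that the word is not
well formed there are no `h', b'` with `Full ok w h' b'` (FU; in modes 2, 3 a missing letter
contradicts the length: `2 ^ t ≤ 2 ^ h < w.length`, `2 ^ t ≤ 4 ^ b < w.length` for `Full`), so for
`mal ≠ 0` the word is in `LangM`. Mode 6 to 7: `C0`, `Ch.zero`, `u = 0`, `word _ _ 0 = 0`. -/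
def GoalFI0 : Prop := GoalFU → ∀ (ok : ℕ → ℕ → ℕ) (tst : ℕ → ℕ) (mal : ℕ) (w : List Bool)
  (x : Sta) (γ : ℕ), γ < 2 → Inv ok tst mal w x → x.mo ≠ 7 →
  Inv ok tst mal w ((machM ok tst mal).nx w x γ)

/-- FI7. Mode 7. For `γ = 1` and `gqM x = 0` the next state is `rejS`. `u < 2 b`: the guess gets the
bit `γ`, `2 g + γ < 2 ^ (u + 1)`, `v = 0`. `2 b ≤ u < 3 b`: the address is
`h + b + 2 + blk * b + (u - 2 b)`; `y - 1` is the value of the letter (also if there is no letter),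
`(w.drop k).getD i false = w.getD (k + i) false`, so `v` becomes the word of length `u + 1 - 2 b`.
`u = 3 b`: `g < 2 ^ (2 b)`, so `g / 2 ^ b, g % 2 ^ b < 2 ^ b`, `2 ^ b * (g / 2 ^ b) + g % 2 ^ b = g`;
for kind `0` the block is `node - 2 ^ h` and `v` is the leaf value, for kind `1` it is
`2 ^ h + (node - 1) * 4 ^ b + g` and `v` is the table entry (`capPow` is not cut off, PB); so EE
applies, the chain gets one more step, and if `τ + 1 = 5 ^ h` (`(τ + 1) / 5 ^ h ≠ 0`) then ALG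
(`V` holds for the zero contents; `word < 2 ^ b`) says that `app _ tst 0 (rootValue) _` is defined, so
`tst (rootValue) ≠ 0` and `w ∈ LangM`. -/
def GoalFI7 : Prop := GoalCHS → GoalALG → GoalPB → GoalCT → GoalEB → GoalEC → GoalED → GoalEE →
  (∀ h b : ℕ, 1 ≤ h → 1 ≤ b → (gadM h b (2 ^ EP h b)).OK) →
  ∀ (ok : ℕ → ℕ → ℕ) (tst : ℕ → ℕ) (mal : ℕ) (w : List Bool) (x : Sta) (γ : ℕ), γ < 2 →
  Inv ok tst mal w x → x.mo = 7 → Inv ok tst mal w ((machM ok tst mal).nx w x γ)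

/-- Statement of FI7 without hypotheses. -/
def InvStep : Prop := ∀ (ok : ℕ → ℕ → ℕ) (tst : ℕ → ℕ) (mal : ℕ) (w : List Bool) (x : Sta)
  (γ : ℕ), γ < 2 → Inv ok tst mal w x → Inv ok tst mal w ((machM ok tst mal).nx w x γ)

/-- FS (soundness). Induction on reachability; the start is `m0 0`; `acc x ≠ 0` means `x.mo = 8`,
which is only possible for `m8`. -/
def GoalFS : Prop := InvStep → ∀ (ok : ℕ → ℕ → ℕ) (tst : ℕ → ℕ) (mal : ℕ) (w : List Bool)
  (x : Sta), (machM ok tst mal).Reach w x →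
    Inv ok tst mal w x ∧ ((machM ok tst mal).acc x ≠ 0 → w ∈ LangM ok tst mal)

/-- FC0. The deterministic first phases on a well formed input (always `γ = 0`): `h` steps in mode 0,
one step to mode 1, `b` steps, one step to mode 2, `h + 1` steps (all `2 ^ t ≤ 2 ^ h < w.length`),
`2 b + 1` steps (`2 ^ (2 b) = 4 ^ b < w.length`, from `Full`, `1 ≤ h`, `1 ≤ b`), modes 4, 5, then
`EP + 1` steps. -/
def GoalFC0 : Prop := ∀ (ok : ℕ → ℕ → ℕ) (tst : ℕ → ℕ) (mal : ℕ) (w : List Bool) (h b : ℕ),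
  Full ok w h b → (machM ok tst mal).Reach w (mainS h b 0 (2 ^ EP h b) 0 0 0 C0)

/-- FC1. From `mainS h b 0 W τ 0 0 C` with the guesses `a, a' < 2 ^ b`: if the kind is `1`, `2 b`
steps which guess the bits of `g = 2 ^ b * a + a'` (most significant first), otherwise `2 b` steps
with `γ = 0` (`g = 0`; the guesses do not matter in `opM`, by ED); `b` steps which read the block, and
one step which uses EE (see FI7 for the values of `v`). -/
def GoalFC1 : Prop := GoalPB → GoalCT → GoalEB → GoalEC → GoalED → GoalEE →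
  ∀ (ok : ℕ → ℕ → ℕ) (tst : ℕ → ℕ) (mal : ℕ) (w : List Bool) (h b τ a a' : ℕ) (C : C3)
    (F : Fin 3 → ℕ × ℕ),
    Full ok w h b → τ < 5 ^ h → a < 2 ^ b → a' < 2 ^ b →
    (machM ok tst mal).Reach w (mainS h b 0 (2 ^ EP h b) τ 0 0 C) →
    opM tst h b w τ a a' (toF C) = some F →
    ∃ C', toF C' = F ∧ (machM ok tst mal).Reach w
      (if τ + 1 < 5 ^ h then mainS h b 0 (2 ^ EP h b) (τ + 1) 0 0 C' else accS)

/-- Conclusion of FC1. -/
def BigStep : Prop :=
  ∀ (ok : ℕ → ℕ → ℕ) (tst : ℕ → ℕ) (mal : ℕ) (w : List Bool) (h b τ a a' : ℕ) (C : C3)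
    (F : Fin 3 → ℕ × ℕ),
    Full ok w h b → τ < 5 ^ h → a < 2 ^ b → a' < 2 ^ b →
    (machM ok tst mal).Reach w (mainS h b 0 (2 ^ EP h b) τ 0 0 C) →
    opM tst h b w τ a a' (toF C) = some F →
    ∃ C', toF C' = F ∧ (machM ok tst mal).Reach w
      (if τ + 1 < 5 ^ h then mainS h b 0 (2 ^ EP h b) (τ + 1) 0 0 C' else accS)

/-- FC (completeness, well formed words). ALG gives a chain of length `5 ^ h` from `toF C0`
(`word < 2 ^ b`; `V` for the zero contents); by induction along the chain (FC0, BigStep; CHS is not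
needed, the last step of the chain comes last) `accS` is reachable: claim: if
`Ch (opM tst h b w) (2 ^ b) t (toF C0) F` and `t < 5 ^ h` then `mainS h b 0 W t 0 0 C` is reachable
for some `C` with `toF C = F`, and if `t = 5 ^ h` then `accS` is. -/
def GoalFC : Prop := GoalCHS → GoalALG → GoalFC0 →
  (∀ h b : ℕ, 1 ≤ h → 1 ≤ b → (gadM h b (2 ^ EP h b)).OK) → BigStep →
  ∀ (ok : ℕ → ℕ → ℕ) (tst : ℕ → ℕ) (mal : ℕ) (w : List Bool) (h b : ℕ), Full ok w h b →
    tst (rootValue h b (w.drop (h + b + 2))) ≠ 0 → (machM ok tst mal).Reach w accS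

/-- FM (malformed words). From the start with `γ = 0`: every state of the invariant in the modes 0 to
5 has a successor (for `γ = 0`) which is `accS` or has again a mode `≤ 5` and a larger measure
`(2 * w.length + 3) * mode + counter` (counter `h, b, u, u, 0, 0` in the modes `0, …, 5`, all
counters are `≤ w.length`); mode 6 is impossible by the invariant. The measure is bounded, so `accS`
is reached. -/
def GoalFM : Prop := GoalFI0 → GoalFU → ∀ (ok : ℕ → ℕ → ℕ) (tst : ℕ → ℕ) (mal : ℕ)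
  (w : List Bool), mal ≠ 0 → (¬ ∃ h b, Full ok w h b) → (machM ok tst mal).Reach w accS

/-- FX (from the main loop to acceptance). If `accS` can be reached from
`mainS h b u W τ g v C` (an invariant state with `u ≤ 2 b`), then `g` is the beginning of the guess
`g'` (`g' / 2 ^ (2 b - u) = g`, `g' < 4 ^ b`) of a step `opM τ (g' / 2 ^ b) (g' % 2 ^ b) (toF C)`
which is defined and after which a chain of the remaining `5 ^ h - (τ + 1)` steps exists. Induction
on the length of the computation to `accS` (a statement also for the states with `u > 2 b`, where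
`g' = g`); the steps of the machine are those of FI7, each big step is a step of `opM` by EE. -/
def GoalFX : Prop := GoalPB → GoalCT → GoalEB → GoalEC → GoalED → GoalEE → InvStep →
  ∀ (ok : ℕ → ℕ → ℕ) (tst : ℕ → ℕ) (mal : ℕ) (w : List Bool) (h b u τ g v : ℕ) (C : C3),
    u ≤ 2 * b → Inv ok tst mal w (mainS h b u (2 ^ EP h b) τ g v C) →
    Relation.ReflTransGen (fun x x' => ∃ γ < 2, x' = (machM ok tst mal).nx w x γ)
      (mainS h b u (2 ^ EP h b) τ g v C) accS →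
    ∃ g' < 4 ^ b, g' / 2 ^ (2 * b - u) = g ∧ ∃ E F : Fin 3 → ℕ × ℕ,
      opM tst h b w τ (g' / 2 ^ b) (g' % 2 ^ b) (toF C) = some E ∧
      Ch (fun t => opM tst h b w (τ + 1 + t)) (2 ^ b) (5 ^ h - (τ + 1)) E F

/-- FUN (unambiguity). Suppose both successors of the invariant state `x` (not accepting) reach
`accS`. For `gqM x = 0` the successor for `γ = 1` is `rejS`, from which only `rejS` is reachable
(or `x` is `accS`). For `gqM x = 1`: `x = mainS h b u W τ g 0 C` with `u < 2 b` and kind `1`; FX for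
the two successors `2 g + γ` gives two different `g'` (`g' / 2 ^ (2 b - u - 1) = 2 g + γ`), but UNQ
(with the chain in the invariant) says that the guesses at the guess time `τ` are equal
(`isG h τ` by ED). -/
def GoalFUN : Prop := GoalCHS → GoalALG → GoalUNQ → GoalPB → GoalCT → GoalEB → GoalEC → GoalED →
  GoalEE → GoalFX → InvStep → (∀ h b : ℕ, 1 ≤ h → 1 ≤ b → (gadM h b (2 ^ EP h b)).OK) →
  ∀ (ok : ℕ → ℕ → ℕ) (tst : ℕ → ℕ) (mal : ℕ) (w : List Bool) (x y y' : Sta),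
    (machM ok tst mal).Reach w x → (machM ok tst mal).acc x = 0 →
    Relation.ReflTransGen (fun x x' => ∃ γ < 2, x' = (machM ok tst mal).nx w x γ)
      ((machM ok tst mal).nx w x 0) y → (machM ok tst mal).acc y ≠ 0 →
    Relation.ReflTransGen (fun x x' => ∃ γ < 2, x' = (machM ok tst mal).nx w x γ)
      ((machM ok tst mal).nx w x 1) y' → (machM ok tst mal).acc y' ≠ 0 → False

/-- FB (bounds). For `Full ok w h b`: all states of the invariant have registers `< 2 ^ SpB h b`. The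
header parameters of the state are those of `w` (FU; in modes 0, 1 at most these). `h, b, u ≤
EP + 3`, `2 ^ u ≤ 2 ^ EP`, `τ < 5 ^ h`, `g < 4 ^ b`, `v < 2 ^ b`; components: ALB with `B = 1` (chain
from `toF C0`): `X < PM ^ (m + 2) ≤ 2 ^ EP`, `S < GM ^ (h + 1) ≤ 2 ^ ((2 s + 5) (h + 1))` (PG).
Registers are `Ctx.enc x i`; `i ≥ Ctx.ar` gives `0`; 15 coordinates. -/
def GoalFB : Prop := GoalCHS → GoalALG → GoalALB → GoalPB → GoalFU →
  (∀ h b : ℕ, 1 ≤ h → 1 ≤ b → (gadM h b (2 ^ EP h b)).OK) →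
  (∀ h b : ℕ, 1 ≤ h → 1 ≤ b → GM h b (2 ^ EP h b) ≤ 2 ^ (2 * sP h b + 5)) →
  ∀ (ok : ℕ → ℕ → ℕ) (tst : ℕ → ℕ) (mal : ℕ) (w : List Bool) (h b : ℕ) (x : Sta),
    Full ok w h b → Inv ok tst mal w x → ∀ i, Ctx.enc x i < 2 ^ SpB h b

/-- FB2. If there are no `h, b` with `Full ok w h b`, then mode 6 and 7 are impossible, and all
registers are `≤ 2 * w.length + 9`: `h, b ≤ w.length` (`Pre`), `u ≤ 2 ^ (u-1) < w.length`,
`2 ^ u ≤ 2 * w.length`; the mode itself is `≤ 9`. -/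
def GoalFB2 : Prop := ∀ (ok : ℕ → ℕ → ℕ) (tst : ℕ → ℕ) (mal : ℕ) (w : List Bool) (x : Sta),
  (¬ ∃ h b, Full ok w h b) → Inv ok tst mal w x → ∀ i, Ctx.enc x i ≤ 2 * w.length + 9

end Pool.Agent.Helper1.TE
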