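import Pool.Agent.Helper1.TE.AS1
import Pool.Agent.Helper1.TE.ED
import Pool.Agent.Helper1.TE.GD
import Pool.Agent.Helper12.TE.BPF
import Pool.Agent.Helper12.TE.LCF
import Pool.Agent.Helper13.TE.CT
import Pool.Agent.Helper16.TE.FI7
import Pool.Agent.Helper16.TE.XBODY
import Pool.Agent.Helper18.TE.FU
import Pool.Agent.Helper18.TE.LTI
import Pool.Agent.Helper20.TE.AS3
import Pool.Agent.Helper22.TE.LOC
import Pool.Agent.Helper22.TE.LPA
import Pool.Agent.Helper24.TE.BPK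
import Pool.Agent.Helper27.TE.FS
import Pool.Agent.Helper27.TE.LSD
import Pool.Agent.Helper27.TE.THR
import Pool.Agent.Helper28.TE.FC
import Pool.Agent.Helper30.TE.CD
import Pool.Agent.Helper32.TE.BPC
import Pool.Agent.Helper37.TE.EE
import Pool.Agent.Helper39.TE.EOK
import Pool.Agent.Helper40.TE.FB2
import Pool.Agent.Helper40.TE.FIN
import Pool.Agent.Helper44.TE.Alb
import Pool.Agent.Helper44.TE.Alg
import Pool.Agent.Helper44.TE.Chain
import Pool.Agent.Helper44.TE.Unq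
import Pool.Agent.Helper44.TE.XSIM
import Pool.Agent.Helper46.TE.FB
import Pool.Agent.Helper46.TE.MOK
import Pool.Agent.Helper47.TE.T1
import Pool.Agent.Helper48.TE.PG
import Pool.Agent.Helper48.TE.T2B
import Pool.Agent.Helper49.TE.AS2
import Pool.Agent.Helper49.TE.EA
import Pool.Agent.Helper53.TE.GA
import Pool.Agent.Helper53.TE.LCT
import Pool.Agent.Helper54.TE.FI0
import Pool.Agent.Helper54.TE.T2A
import Pool.Agent.Helper57.TE.DT
import Pool.Agent.Helper57.TE.FM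
import Pool.Agent.Helper59.TE.CE
import Pool.Agent.Helper59.TE.FUN
import Pool.Agent.Helper59.TE.LNX
import Pool.Agent.Helper62.TE.PS
import Pool.Agent.Helper77.TE.CO
import Pool.Agent.Helper79.TE.LG1
import Pool.Agent.Helper79.TE.PB
import Pool.Agent.Helper81.TE.FX
import Pool.Agent.Helper82.TE.EB
import Pool.Agent.Helper83.TE.BPS
import Pool.Agent.Helper83.TE.CL
import Pool.Agent.Helper84.TE.XPR
import Pool.Agent.Helper86.TE.LVE
import Pool.Agent.Helper87.TE.CSD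
import Pool.Agent.Helper88.TE.FC0
import Pool.Agent.Helper89.TE.COM
import Pool.Agent.Helper89.TE.GC
import Pool.Agent.Helper90.TE.LBG
import Pool.Agent.Helper95.TE.EC
import Pool.Agent.Helper97.TE.FC1
import Pool.Agent.Helper1.TE.Goals3
import Pool.Agent.Helper1.TE.Goals4

/-!
# PROJECT TE (MP_8b4d68_lc): assembly
-/

namespace Pool.Agent.Helper1.TE

open Pool.Agent.Helper65.LinSpace (Ctx LS)

theorem okM : ∀ h b : ℕ, 1 ≤ h → 1 ≤ b → (gadM h b (2 ^ EP h b)).OK :=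
  @Pool.Agent.Helper39.TE.gEOK @Pool.Agent.Helper13.TE.gCT @Pool.Agent.Helper49.TE.gEA @Pool.Agent.Helper79.TE.gPB @Pool.Agent.Helper59.TE.gCE @Pool.Agent.Helper87.TE.gCSD @Pool.Agent.Helper83.TE.gCL @Pool.Agent.Helper30.TE.gCD @Pool.Agent.Helper77.TE.gCO @Pool.Agent.Helper53.TE.gGA @Pool.Agent.Helper89.TE.gGC @Pool.Agent.Helper1.TE.gGD

theorem invStep : InvStep := by
  intro ok tst mal w x γ hγ hx
  by_cases h : x.mo = 7
  · exact @Pool.Agent.Helper16.TE.gFI7 @Pool.Agent.Helper44.TE.gCHS @Pool.Agent.Helper44.TE.gALG @Pool.Agent.Helper79.TE.gPB @Pool.Agent.Helper13.TE.gCT @Pool.Agent.Helper82.TE.gEB @Pool.Agent.Helper95.TE.gEC @Pool.Agent.Helper1.TE.gED @Pool.Agent.Helper37.TE.gEE okM ok tst mal w x γ hγ hx h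
  · exact @Pool.Agent.Helper54.TE.gFI0 @Pool.Agent.Helper18.TE.gFU ok tst mal w x γ hγ hx h

theorem bigStep : BigStep := @Pool.Agent.Helper97.TE.gFC1 @Pool.Agent.Helper79.TE.gPB @Pool.Agent.Helper13.TE.gCT @Pool.Agent.Helper82.TE.gEB @Pool.Agent.Helper95.TE.gEC @Pool.Agent.Helper1.TE.gED @Pool.Agent.Helper37.TE.gEE

theorem gmM : ∀ h b : ℕ, 1 ≤ h → 1 ≤ b → GM h b (2 ^ EP h b) ≤ 2 ^ (2 * sP h b + 5) :=
  @Pool.Agent.Helper48.TE.gPG @Pool.Agent.Helper79.TE.gPB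

theorem round : Round := @Pool.Agent.Helper47.TE.gT1 @Pool.Agent.Helper44.TE.gXSIM

theorem nunamb (ok : ℕ → ℕ → ℕ) (tst : ℕ → ℕ) (mal : ℕ) (w : List Bool) :
    NUnamb (machM ok tst mal) w :=
  @Pool.Agent.Helper59.TE.gFUN @Pool.Agent.Helper44.TE.gCHS @Pool.Agent.Helper44.TE.gALG @Pool.Agent.Helper44.TE.gUNQ @Pool.Agent.Helper79.TE.gPB @Pool.Agent.Helper13.TE.gCT @Pool.Agent.Helper82.TE.gEB @Pool.Agent.Helper95.TE.gEC @Pool.Agent.Helper1.TE.gED @Pool.Agent.Helper37.TE.gEE @Pool.Agent.Helper81.TE.gFX invStep okM ok tst mal w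

theorem machineOK : MachineOK :=
  @Pool.Agent.Helper46.TE.gMOK (@Pool.Agent.Helper89.TE.gCOM @Pool.Agent.Helper84.TE.gXPR @Pool.Agent.Helper16.TE.gXBODY @round @Pool.Agent.Helper57.TE.gDT @Pool.Agent.Helper54.TE.gT2A @Pool.Agent.Helper48.TE.gT2B) (@Pool.Agent.Helper59.TE.gLNX @Pool.Agent.Helper12.TE.gLCF @Pool.Agent.Helper22.TE.gLPA @Pool.Agent.Helper18.TE.gLTI @Pool.Agent.Helper86.TE.gLVE @Pool.Agent.Helper90.TE.gLBG)
    (@Pool.Agent.Helper27.TE.gFS invStep) (@Pool.Agent.Helper28.TE.gFC @Pool.Agent.Helper44.TE.gCHS @Pool.Agent.Helper44.TE.gALG @Pool.Agent.Helper88.TE.gFC0 okM bigStep) (@Pool.Agent.Helper57.TE.gFM @Pool.Agent.Helper54.TE.gFI0 @Pool.Agent.Helper18.TE.gFU) nunamb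
    (@Pool.Agent.Helper46.TE.gFB @Pool.Agent.Helper44.TE.gCHS @Pool.Agent.Helper44.TE.gALG @Pool.Agent.Helper44.TE.gALB @Pool.Agent.Helper79.TE.gPB @Pool.Agent.Helper18.TE.gFU okM gmM) @Pool.Agent.Helper40.TE.gFB2

theorem main_space :
    (TreeEval Set.univ ∈ USPACE (fun n => Real.log n * √(Real.log (Real.log n))) ∧
      (TreeEval Set.univ)ᶜ ∈ USPACE (fun n => Real.log n * √(Real.log (Real.log n)))) ∧
    ∀ C : ℕ, TreeEval {x | x.2 * Nat.log 2 x.2 ≤ C * x.1} ∈ USPACE (fun n => Real.log n) ∧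
      (TreeEval {x | x.2 * Nat.log 2 x.2 ≤ C * x.1})ᶜ ∈ USPACE (fun n => Real.log n) :=
  @Pool.Agent.Helper40.TE.gFIN machineOK @Pool.Agent.Helper18.TE.gFU @Pool.Agent.Helper79.TE.gLG1 @Pool.Agent.Helper62.TE.gPS @Pool.Agent.Helper1.TE.gAS1 @Pool.Agent.Helper49.TE.gAS2 @Pool.Agent.Helper20.TE.gAS3

theorem main_bp : ∃ C : ℝ, ∀ h k : ℕ, 1 ≤ h → 2 ≤ k → ∃ B : BP k, B.Proper h ∧ B.Computes h ∧
    B.Unambiguous ∧ B.Thrifty h ∧
    (B.size : ℝ) ≤ Real.exp (C * (h + Real.log k + √(h * Real.log k * Real.log (Real.log k)))) :=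
  @Pool.Agent.Helper12.TE.gBPF @Pool.Agent.Helper79.TE.gPB okM gmM @Pool.Agent.Helper24.TE.gBPK (@Pool.Agent.Helper32.TE.gBPC @Pool.Agent.Helper44.TE.gCHS @Pool.Agent.Helper44.TE.gALG @Pool.Agent.Helper44.TE.gALB @Pool.Agent.Helper44.TE.gUNQ @Pool.Agent.Helper27.TE.gTHR @Pool.Agent.Helper22.TE.gLOC) (@Pool.Agent.Helper83.TE.gBPS @Pool.Agent.Helper62.TE.gPS)

end Pool.Agent.Helper1.TE
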