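import Pool.Agent.Helper65.LinSpace.Defs

/-!
# Tree evaluation in nondeterministic space: definitions used in the statements
-/

namespace Pool.Agent.Helper1.TE

open Pool.Agent.Helper65.LinSpace (Dir inputSym inputMove)

/-! ### Nondeterministic off-line Turing machines -/

/-- A nondeterministic Turing machine with a read-only input tape and `k` work tapes.
`step q a s` is the set of the possible actions in state `q` when the input head reads `a` (`none`
at both ends of the input) and the work heads read `s`: the new state, the move of the input head,
and for each work tape the written symbol and the move of the head. -/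
structure NTM (k : ℕ) where
  State : Type
  Sym : Type
  [finState : Finite State]
  [finSym : Finite Sym]
  start : State
  blank : Sym
  accept : Set State
  step : State → Option Bool → (Fin k → Sym) → Set (State × Dir × (Fin k → Sym × Dir))

/-- Configurations; the input head is at a position in `0, …, n + 1`. -/
structure NTM.Cfg {k : ℕ} (M : NTM k) where
  state : M.State
  inp : ℕ
  tape : Fin k → ℤ → M.Sym
  head : Fin k → ℤ

/-- The initial configuration. -/
def NTM.init {k : ℕ} (M : NTM k) : M.Cfg :=
  { state := M.start, inp := 0, tape := fun _ _ => M.blank, head := fun _ => 0 }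

/-- `c'` can follow `c` on the input `w`. -/
def NTM.Next {k : ℕ} (M : NTM k) (w : List Bool) (c c' : M.Cfg) : Prop :=
  ∃ a ∈ M.step c.state (inputSym w c.inp) (fun i => c.tape i (c.head i)),
    c' = { state := a.1
           inp := inputMove w a.2.1 c.inp
           tape := fun i => Function.update (c.tape i) (c.head i) (a.2.2 i).1
           head := fun i => c.head i + (a.2.2 i).2.toInt }

/-- The configurations which can occur on the input `w`. -/
def NTM.Reach {k : ℕ} (M : NTM k) (w : List Bool) (c : M.Cfg) : Prop :=
  Relation.ReflTransGen (M.Next w) M.init c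

/-- Some computation on `w` enters an accepting state. -/
def NTM.Accepts {k : ℕ} (M : NTM k) (w : List Bool) : Prop :=
  ∃ c, M.Reach w c ∧ c.state ∈ M.accept

/-- In all computations on `w` the work heads stay within distance `B` of their initial cells. -/
def NTM.Within {k : ℕ} (M : NTM k) (w : List Bool) (B : ℝ) : Prop :=
  ∀ c, M.Reach w c → ∀ i, (|c.head i| : ℝ) ≤ B

/-- `c 0, …, c t` is an accepting computation on `w`: it ends when an accepting state is entered. -/
def NTM.AccComp {k : ℕ} (M : NTM k) (w : List Bool) (t : ℕ) (c : ℕ → M.Cfg) : Prop :=
  c 0 = M.init ∧ (∀ i < t, M.Next w (c i) (c (i + 1))) ∧ (∀ i < t, (c i).state ∉ M.accept) ∧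
    (c t).state ∈ M.accept

/-- There is at most one accepting computation on `w`. -/
def NTM.Unambiguous {k : ℕ} (M : NTM k) (w : List Bool) : Prop :=
  ∀ t c t' c', M.AccComp w t c → M.AccComp w t' c' → t = t' ∧ ∀ i ≤ t, c i = c' i

/-- Unambiguous nondeterministic space `O(s)`: the languages accepted by nondeterministic machines
which use space `O(s)` on all inputs and have at most one accepting computation on each input. -/
def USPACE (s : ℕ → ℝ) : Set (Set (List Bool)) :=
  {L | ∃ (k : ℕ) (M : NTM k) (c : ℝ), ∀ w : List Bool,
    (w ∈ L ↔ M.Accepts w) ∧ M.Within w (c * (s w.length + 1)) ∧ M.Unambiguous w}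

/-! ### Tree evaluation -/

/-- The value of the node `j` in a complete binary tree with leaf values `leaf` and tables `f`, if
the height of `j` above the leaves is `h`; the children of `j` are `2 j` and `2 j + 1`. -/
def nval (leaf : ℕ → ℕ) (f : ℕ → ℕ → ℕ → ℕ) : ℕ → ℕ → ℕ
  | 0, j => leaf j
  | h + 1, j => f j (nval leaf f h (2 * j)) (nval leaf f h (2 * j + 1))

/-- The number with the binary digits `w[i], …, w[i + b - 1]` (most significant first). -/
def word (w : List Bool) (i : ℕ) : ℕ → ℕ
  | 0 => 0
  | b + 1 => 2 * word w i b + (w.getD (i + b) false).toNat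

/-- The number of blocks of a tree of height `h` with values of `b` bits. -/
def blocks (h b : ℕ) : ℕ := 2 ^ h + (2 ^ h - 1) * 4 ^ b

/-- The value of the root (node `1`) of the tree given by the blocks of `b` bits of `w`: first the
`2 ^ h` leaves from left to right, then for every inner node `j = 1, 2, …, 2 ^ h - 1` the `4 ^ b`
entries of its table, the entry for `x, y` at the place `2 ^ b x + y`. -/
def rootValue (h b : ℕ) (w : List Bool) : ℕ :=
  nval (fun j => word w ((j - 2 ^ h) * b) b)
    (fun j x y => word w ((2 ^ h + (j - 1) * 4 ^ b + (2 ^ b * x + y)) * b) b) h 1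

/-- The instances with height `h ≥ 1` and values of `b ≥ 1` bits whose root has the value `1`. -/
def TEP (h b : ℕ) : Set (List Bool) :=
  {w | ∃ v : List Bool, v.length = blocks h b * b ∧ rootValue h b v = 1 ∧
    w = List.replicate h true ++ false :: (List.replicate b true ++ false :: v)}

/-- The tree evaluation problem for all heights and numbers of bits in the set `D`. -/
def TreeEval (D : Set (ℕ × ℕ)) : Set (List Bool) :=
  {w | ∃ h b, 1 ≤ h ∧ 1 ≤ b ∧ (h, b) ∈ D ∧ w ∈ TEP h b}

end Pool.Agent.Helper1.TE
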