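import Pool.Agent.Helper1.TE.Mach

/-!
# PROJECT TE (MP_8b4d68_lc): goals, part 1

Deliver `Pool/Agent/<Seat>/TE/XX.lean` with `theorem gXX : GoalXX` (namespace
`Pool.Agent.<Seat>.TE`). Other goals that are needed are hypotheses of the statement.
-/

namespace Pool.Agent.Helper1.TE

open Pool.Agent.Helper65.LinSpace (dig tab nrec ifz eq01 le01 lt01 capPow Ctx)
open Finset

/-! ### A. The algorithm -/

/-- CHS. Splitting of a chain. Induction on `t` (cases on the last step). -/
def GoalCHS : Prop := ∀ {S : Type} (step : ℕ → ℕ → ℕ → S → Option S) (K s t : ℕ) (x y : S),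
  Ch step K (s + t) x y ↔ ∃ z, Ch step K s x z ∧ Ch (fun τ => step (s + τ)) K t z y

/-- ALG (main lemma). Induction on `h`. A chain of length `t` depends only on the step functions of
the times `< t` (small lemma). `h = 0`: one step, the guesses are irrelevant (`0 < K` because
`leaf j < K`). `h + 1`: `5 ^ (h + 1) = 5 ^ h + 5 ^ h + 5 ^ h + 5 ^ h + 5 ^ h`, split with CHS. In the
block `r` the time is `r * 5 ^ h + τ'`, `τ' < 5 ^ h`, so `opR` is: block 0 the visit of `2 j` with
`T = 1`, component `i + 1`; block 1 the visit of `2 j + 1` with `T = 1`, component `i + 2`; block 2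
one step `guess` and `5 ^ h - 1` steps `some C`; blocks 3, 4 the visits of `2 j`, `2 j + 1` with
`T = 2`. All contents stay valid (`hd_V`, `sh_V`, `un_V`). By induction blocks 0, 1 replace
`C (i+1) = m` by `hd u m`, `C (i+2) = m'` by `hd u' m'`, where `u, u'` are the values of the
children. The guess `a, b` gives `sh a (hd u m)`, `sh b (hd u' m')`; block 3 is possible iff
`un u (sh a (hd u m))` is defined; then `sound` gives `a = u`, and the result is `m` by `ok`. In the
same way `b = u'` and block 4 gives `m'`. So `guess` applied `T` with the value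
`f j u u' = nval (h+1) j` to `C i`. Conversely `a = u`, `b = u'` works (`u, u' < K`: induction,
`nval < K`). The indices `i, i + 1, i + 2` of `Fin 3` are different (`fin_cases` or `decide`). -/
def GoalALG : Prop := GoalCHS → ∀ {Z : Type} (g : Gad Z), g.OK → ∀ (tst : ℕ → ℕ)
  (leaf : ℕ → ℕ) (f : ℕ → ℕ → ℕ → ℕ), (∀ j, leaf j < g.K) → (∀ j a b, f j a b < g.K) →
  ∀ (h j T : ℕ) (i : Fin 3) (C C' : Fin 3 → Z), (∀ k, g.V (C k)) →
    (Ch (opR g tst leaf f h j T i) g.K (5 ^ h) C C' ↔
      ∃ z, app g tst T (nval leaf f h j) (C i) = some z ∧ C' = Function.update C i z)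

/-- ALB. Bounds along (also incomplete) chains. Induction on `h`. `h = 0`: `t = 0` or `1`; `hd`
multiplies the bound by at most `G` (`st_hd`), `un` does not increase `st`.
`h + 1`: `t = r * 5 ^ h + t'` with `r ≤ 4`, `t' ≤ 5 ^ h`; by CHS there are `r` complete blocks and
one incomplete block; the complete visits are exact by ALG, the block 2 is a guess and steps
`some C`. After the block 0: `st (C (i+1)) < G * B`, others `< B`. After the block 1 all `< G * B`.
After the block 2 all `< G * B` (`C i` was `< B`, `st_sh`). After block 3: `un` does not increase.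
So every block starts with all `st < G * B` and within it the bound is `G * B * G ^ (h + 1)`. (`f` and
`leaf` are `< K`; the guesses are `< K`.) -/
def GoalALB : Prop := GoalCHS → GoalALG → ∀ {Z : Type} (g : Gad Z), g.OK → ∀ (tst : ℕ → ℕ)
  (leaf : ℕ → ℕ) (f : ℕ → ℕ → ℕ → ℕ), (∀ j, leaf j < g.K) → (∀ j a b, f j a b < g.K) →
  ∀ (h j T : ℕ) (i : Fin 3) (C C' : Fin 3 → Z) (t B : ℕ), t ≤ 5 ^ h →
    (∀ k, g.V (C k)) → (∀ k, g.st (C k) < B) → Ch (opR g tst leaf f h j T i) g.K t C C' →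
    ∀ k, g.V (C' k) ∧ g.st (C' k) < B * g.G ^ (h + 1)

/-- UNQ (uniqueness). In a complete chain the contents at the time `t` and the guesses at the guess
times are determined. Induction on `h`, both chains together. `h = 0`: `t = 0`. `h + 1`: let
`t = r * 5 ^ h + t'`. The complete blocks before and after the block `r` are exact by ALG (so the
contents at the start of the block `r` are the same for both chains); `r = 0, 1, 3, 4`: induction for the visit of
height `h` (the rest of the block is complete; its continuation exists), `r = 2`: if `t' = 0` the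
step is the guess; the blocks 3, 4 exist, so `a` and `b` are the values of the children (`sound`, as
in ALG); if `t' > 0` the first step of the block was the guess, again with the values of the
children, and nothing changes after it. -/
def GoalUNQ : Prop := GoalCHS → GoalALG → ∀ {Z : Type} (g : Gad Z), g.OK → ∀ (tst : ℕ → ℕ)
  (leaf : ℕ → ℕ) (f : ℕ → ℕ → ℕ → ℕ), (∀ j, leaf j < g.K) → (∀ j a b, f j a b < g.K) →
  ∀ (h j T : ℕ) (i : Fin 3) (C D D' E E' F F' : Fin 3 → Z) (t a b a' b' : ℕ), t < 5 ^ h →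
    (∀ k, g.V (C k)) → a < g.K → b < g.K → a' < g.K → b' < g.K →
    Ch (opR g tst leaf f h j T i) g.K t C D → opR g tst leaf f h j T i t a b D = some E →
    Ch (fun τ => opR g tst leaf f h j T i (t + 1 + τ)) g.K (5 ^ h - (t + 1)) E F →
    Ch (opR g tst leaf f h j T i) g.K t C D' → opR g tst leaf f h j T i t a' b' D' = some E' →
    Ch (fun τ => opR g tst leaf f h j T i (t + 1 + τ)) g.K (5 ^ h - (t + 1)) E' F' →
    D = D' ∧ E = E' ∧ (isG h t → a = a' ∧ b = b')

/-! ### B. The gadget -/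

/-- GA (`ok`). `P = L + R`, `G = P / R + 1`, `w = wN p X < P`, `s = w / R < G`. The digits of
`addm X y` are those of `X` except that digit `m` is `(d + y) % P` (`dig_tab`), and
`wN p (addm X y) ≡ wN p X - y` modulo `P` (the coefficient of the coordinate `m` is `P - 1`). So for
`X' = addm X (R * s)`: `wN p X' = w % R < R`. `ushX p (shX p X') = X'` (digits
`((d + v) % P + (P - v)) % P = d`, all `v = vN p i ≤ L < P` by `le`, `nrm_le`, `hL`; `tab_dig`,
`X' < P ^ (m + 2)`). `(G * S + s) % G = s`, `(G * S + s) / G = S`, and `addm X' (P - R * s)` has the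
digits of `X` (`R * s ≤ w < P`). -/
def GoalGA : Prop := ∀ (c : ℕ → ℕ → ℕ) (m L R K : ℕ), CodeOK c m L R K →
  ∀ p < K, ∀ z : ℕ × ℕ, (numGad c m L R K).V z →
    (numGad c m L R K).un p ((numGad c m L R K).sh p ((numGad c m L R K).hd p z)) = some z

/-- GC (`sound`, the induced matchings). Let `X = (hd p z).1`, so `wN p X < R` (it is
`wN p z.1 % R`, see GA). The hypothesis gives `wN p (ushX p (shX a X)) < R`. Modulo `P = L + R` (in
`ℤ`): `wN p (ushX p (shX a X)) ≡ wN p X + W(v_a) - W(v_p)` with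
`W(v_a) = 2 ∑ c p i * c a i - nrm a + (L - nrm p) = L - dst p a` and `W(v_p) = L`. So it is
`≡ wN p X - dst p a`, and if `a ≠ p` then `R ≤ dst p a ≤ L`, so `wN p X - dst p a` is in `[-L, -1]`
and its residue in `[R, P - 1]`: contradiction. -/
def GoalGC : Prop := ∀ (c : ℕ → ℕ → ℕ) (m L R K : ℕ), CodeOK c m L R K →
  ∀ p < K, ∀ a < K, ∀ z : ℕ × ℕ, (numGad c m L R K).V z →
    ((numGad c m L R K).un p ((numGad c m L R K).sh a ((numGad c m L R K).hd p z))).isSome →
    a = p

/-- GD. Assembly; `V`: all new first parts are `tab (L + R) (m + 2) _` with digits `< L + R`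
(`tab_lt`; for `addm` and `un` also `dig_lt`); `st_hd`: `w / R < (L + R) / R + 1` because
`w < L + R`. -/
def GoalGD : Prop := GoalGA → GoalGC → ∀ (c : ℕ → ℕ → ℕ) (m L R K : ℕ),
  CodeOK c m L R K → (numGad c m L R K).OK

/-! ### C. The code -/

/-- CE (existence of a seed by counting). For `0 < p < 2 ^ b` the map
`a ↦ (bitc b a p i)_{i < 4 b}` is injective on `a < 2 ^ (3 b)`: it is multiplication by a nonzero
polynomial over `ZMod 2` (or directly: if `t₀` is the lowest set bit of `p`, the bits of the product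
number `t₀, t₀ + 1, …` determine the bits of `a` one after the other). The number of 0-1-vectors of
length `4 b` with `4 * weight < b` is at most `∑_x (1/16) ^ (weight x) * 16 ^ (b / 4) =
(17/16) ^ (4 b) * 2 ^ b < 4 ^ b` (because `17 ^ 4 * 2 < 4 * 16 ^ 4`; to avoid real exponents use
`(∑_x 16 ^ (4 b - weight x)) = 17 ^ (4 b)` and `16 ^ (4 b - weight) ≥ 16 ^ (4 b) / 2 ^ b`, i.e.
`16 ^ weight ≤ 2 ^ b` if `4 * weight ≤ b`). So fewer than `2 ^ b * 4 ^ b` seeds `a < 2 ^ (3 b)` are bad for some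
`p`. -/
def GoalCE : Prop := ∀ b : ℕ, 1 ≤ b → ∃ a, Good b a

/-- CL. `dig 2 (p ^^^ q) t = (dig 2 p t + dig 2 q t) % 2` (`Nat.testBit_xor`,
`Nat.testBit_eq_decide_div_mod_eq` or similar), sums modulo 2. -/
def GoalCL : Prop := ∀ b a p q i : ℕ,
  bitc b a (p ^^^ q) i = (bitc b a p i + bitc b a q i) % 2

/-- CD. Let `r = p ^^^ q`, `0 < r < 2 ^ b`. `bitc` of `p` and `q` differ at `i` iff
`bitc b a r i = 1` (CL), so they differ at `wt b a r ≥ b / 4` places `i < 4 b`. The place `i` is in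
the symbol `i / s < (4 b + s - 1) / s`; a symbol contains at most `s` places, and if `sym` of `p`
and `q` are equal at `k` then all their bits are equal (binary digits are unique: `dig_tab`,
`sym` is a `tab 2 s`). So at least `(b / 4) / s` symbols differ, i.e. `D` symbols with
`4 * s * D ≥ b`, and `D ≥ (b + 4 s - 1) / (4 s)`; each contributes at least `1` to `dst`. -/
def GoalCD : Prop := GoalCL → ∀ b a s p q : ℕ, 1 ≤ s → s ≤ b → Good b a → p < 2 ^ b →
  q < 2 ^ b → p ≠ q →
  (((b + 4 * s - 1) / (4 * s) : ℕ) : ℤ) ≤ dst (sym s b a) ((4 * b + s - 1) / s) p q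

/-- CO. `sym ≤ 2 ^ s - 1`, so squares and squared differences are at most `(2 ^ s - 1) ^ 2`;
`le_dst` is CD. -/
def GoalCO : Prop := GoalCL → GoalCD → ∀ b a s : ℕ, 1 ≤ s → s ≤ b → Good b a →
  CodeOK (sym s b a) ((4 * b + s - 1) / s) ((4 * b + s - 1) / s * (2 ^ s - 1) ^ 2)
    ((b + 4 * s - 1) / (4 * s)) (2 ^ b)

/-- CSD. The powers are not cut off. `good01 b W i = 1` iff `b ≤ 4 * wt b i p` for
all `0 < p < 2 ^ b` (a sum of numbers is zero iff all are zero). By induction on `n`: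
if some `i < n` has `good01 b W i ≠ 0`, then the value of the recursion at `n` is such an `i < n`. -/
def GoalCSD : Prop := GoalCE → ∀ b W : ℕ, 1 ≤ b → 2 ^ (3 * b) ≤ W → Good b (seed b W)

/-! ### D. Parameters -/

/-- PB. `1 ≤ mP`, `P = m (2 ^ s - 1) ^ 2 + R ≤ (m + R) * 4 ^ s < 2 ^ (2 s + log (m + R) + 1)`. -/
def GoalPB : Prop := ∀ h b : ℕ, 1 ≤ h → 1 ≤ b →
  1 ≤ sP h b ∧ sP h b ≤ b ∧ LP h b (2 ^ EP h b) = mP h b * (2 ^ sP h b - 1) ^ 2 ∧
  0 < PM h b (2 ^ EP h b) ∧ PM h b (2 ^ EP h b) ^ (mP h b + 2) ≤ 2 ^ EP h b ∧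
  5 ^ h ≤ 2 ^ EP h b ∧ 2 ^ (3 * b) ≤ 2 ^ EP h b ∧ 2 ^ (h + 1) ≤ 2 ^ EP h b ∧
  4 ^ b ≤ 2 ^ EP h b ∧ 2 ^ sP h b ≤ 2 ^ EP h b

/-- PG. `m ≤ 5 b / s`, `R ≥ b / (4 s)`, so `m ≤ 20 R`, and with `GoalPB`
`GM ≤ (m 4 ^ s + R) / R + 1 ≤ 20 * 4 ^ s + 2 ≤ 2 ^ (2 s + 5)`. -/
def GoalPG : Prop := GoalPB → ∀ h b : ℕ, 1 ≤ h → 1 ≤ b →
  GM h b (2 ^ EP h b) ≤ 2 ^ (2 * sP h b + 5)

/-- The bound for the logarithms of the registers. -/
def SpB (h b : ℕ) : ℕ := EP h b + (h + 2) * (2 * sP h b + 5)

/-- PS (asymptotics). `s = min b (sqrt (b log₂ b / h) + 1)` (integer parts), `s ≥ 1`. (i)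
`h s ≤ h + √(h b log₂ b)`. (ii) `b log₂ b / s ≤ √(h b log₂ b) + log₂ b`: if `s = b` it is `log₂ b`;
otherwise `s > √(b log₂ b / h)` (`Nat.lt_succ_sqrt`, `Nat.lt_div_...`). (iii) `m ≤ 5 b / s`,
`m + R ≤ 8 b`, so `(m + 2) (2 s + log₂ (m + R) + 1) ≤ (5 b / s + 2) (2 s + log₂ b + 4) ≤
10 b + 5 b log₂ b / s + 20 b / s + 4 s + 2 log₂ b + 8`. Here `log₂ = Nat.log 2`, and
`Nat.log 2 b ≤ log b / log 2 ≤ 2 log b`. -/
def GoalPS : Prop := ∃ C : ℝ, ∀ h b : ℕ, 1 ≤ h → 1 ≤ b →
  (SpB h b : ℝ) ≤ C * (h + b + √(h * b * Real.log b))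

end Pool.Agent.Helper1.TE
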