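import Pool.Agent.Helper1.TE.Defs
import Pool.Agent.Helper6.LinSpace.Mach
import Pool.Agent.Helper65.LinSpace.Typed

/-!
# Counter programs with an input tape
-/

namespace Pool.Agent.Helper1.TE

open Pool.Agent.Helper65.LinSpace (Dir inputSym inputMove Prog Run cons Ctx LS)
open Pool.Agent.Helper6.Compile (Sy actInc actLoop tapeOf val)

/-- Counter programs with an input head. `mv d` moves the input head, `rd p₀ p₁ p₂` runs `p₀`, `p₁`
or `p₂` if the input head reads nothing, `false` or `true`, `whl p` runs `p` while the input head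
reads a letter. -/
inductive XP
  | skip
  | inc (i : ℕ)
  | seq (p q : XP)
  | loop (i : ℕ) (p : XP)
  | mv (d : Dir)
  | rd (p₀ p₁ p₂ : XP)
  | whl (p : XP)

/-- The program which is chosen by the letter. -/
def XP.pick (p₀ p₁ p₂ : XP) : Option Bool → XP
  | none => p₀
  | some false => p₁
  | some true => p₂

/-- `XRun w B p x x'`: started in `x` (counters and position of the input head) the program `p`
ends in `x'`, and every value written into a counter is at most `B`. -/
inductive XRun (w : List Bool) (B : ℕ) : XP → (ℕ → ℕ) × ℕ → (ℕ → ℕ) × ℕ → Prop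
  | skip (x) : XRun w B .skip x x
  | inc (i s n) (h : s i + 1 ≤ B) : XRun w B (.inc i) (s, n) (Function.update s i (s i + 1), n)
  | seq {p q x₁ x₂ x₃} (h₁ : XRun w B p x₁ x₂) (h₂ : XRun w B q x₂ x₃) : XRun w B (.seq p q) x₁ x₃
  | loop_zero {i p s n} (h : s i = 0) : XRun w B (.loop i p) (s, n) (s, n)
  | loop_succ {i p s₁ n x₂ x₃} (h : s₁ i ≠ 0)
      (h₁ : XRun w B p (Function.update s₁ i (s₁ i - 1), n) x₂)
      (h₂ : XRun w B (.loop i p) x₂ x₃) : XRun w B (.loop i p) (s₁, n) x₃
  | mv (d s n) : XRun w B (.mv d) (s, n) (s, inputMove w d n)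
  | rd {p₀ p₁ p₂ s n x'} (h : XRun w B (XP.pick p₀ p₁ p₂ (inputSym w n)) (s, n) x') :
      XRun w B (.rd p₀ p₁ p₂) (s, n) x'
  | whl_stop {p s n} (h : inputSym w n = none) : XRun w B (.whl p) (s, n) (s, n)
  | whl_go {p s n x₂ x₃} (h : inputSym w n ≠ none) (h₁ : XRun w B p (s, n) x₂)
      (h₂ : XRun w B (.whl p) x₂ x₃) : XRun w B (.whl p) (s, n) x₃

/-- The control states of a program. -/
def XSt : XP → Type
  | .skip => Unit
  | .inc _ => Fin 3
  | .seq p q => XSt p ⊕ XSt q
  | .loop _ p => Fin 4 ⊕ XSt p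
  | .mv _ => Unit
  | .rd p₀ p₁ p₂ => Unit ⊕ (XSt p₀ ⊕ (XSt p₁ ⊕ XSt p₂))
  | .whl p => Unit ⊕ XSt p

/-- The initial control state. -/
def xentry : (p : XP) → XSt p
  | .skip => ()
  | .inc _ => (0 : Fin 3)
  | .seq p _ => Sum.inl (xentry p)
  | .loop _ _ => Sum.inl 0
  | .mv _ => ()
  | .rd _ _ _ => Sum.inl ()
  | .whl _ => Sum.inl ()

/-- The tape used in a control state. -/
def xtp : (p : XP) → XSt p → ℕ
  | .skip, _ => 0
  | .inc i, _ => i
  | .seq p _, Sum.inl a => xtp p a
  | .seq _ q, Sum.inr b => xtp q b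
  | .loop i _, Sum.inl _ => i
  | .loop _ p, Sum.inr a => xtp p a
  | .mv _, _ => 0
  | .rd _ _ _, Sum.inl _ => 0
  | .rd p₀ _ _, Sum.inr (Sum.inl a) => xtp p₀ a
  | .rd _ p₁ _, Sum.inr (Sum.inr (Sum.inl a)) => xtp p₁ a
  | .rd _ _ p₂, Sum.inr (Sum.inr (Sum.inr a)) => xtp p₂ a
  | .whl _, Sum.inl _ => 0
  | .whl p, Sum.inr a => xtp p a

/-- The control state which is chosen by the letter. -/
def rdGo (p₀ p₁ p₂ : XP) : Option Bool → XSt (.rd p₀ p₁ p₂)
  | none => Sum.inr (Sum.inl (xentry p₀))
  | some false => Sum.inr (Sum.inr (Sum.inl (xentry p₁)))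
  | some true => Sum.inr (Sum.inr (Sum.inr (xentry p₂)))

/-- The action of the control, when the input head reads `y` and the work head `s`: the next state
(`none` is the exit), the move of the input head, the written symbol and the move of the work
head. -/
def xact : (p : XP) → XSt p → Option Bool → Sy → Option (XSt p) × Dir × Sy × Dir
  | .skip, _, _, s => (none, .stay, s, .stay)
  | .inc _, a, _, s => ((actInc a s).1, .stay, (actInc a s).2)
  | .seq p q, Sum.inl a, y, s =>
      ((xact p a y s).1.elim (some (Sum.inr (xentry q))) (fun a' => some (Sum.inl a')),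
        (xact p a y s).2)
  | .seq _ q, Sum.inr b, y, s =>
      ((xact q b y s).1.elim none (fun b' => some (Sum.inr b')), (xact q b y s).2)
  | .loop _ p, Sum.inl a, _, s =>
      ((actLoop a s).1.elim none
        (fun x => some (x.elim (Sum.inr (xentry p)) (fun a' => Sum.inl a'))), .stay,
        (actLoop a s).2)
  | .loop _ p, Sum.inr a, y, s =>
      ((xact p a y s).1.elim (some (Sum.inl 0)) (fun a' => some (Sum.inr a')), (xact p a y s).2)
  | .mv d, _, _, s => (none, d, s, .stay)
  | .rd p₀ p₁ p₂, Sum.inl _, y, s => (some (rdGo p₀ p₁ p₂ y), .stay, s, .stay)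
  | .rd p₀ _ _, Sum.inr (Sum.inl a), y, s =>
      ((xact p₀ a y s).1.elim none (fun a' => some (Sum.inr (Sum.inl a'))), (xact p₀ a y s).2)
  | .rd _ p₁ _, Sum.inr (Sum.inr (Sum.inl a)), y, s =>
      ((xact p₁ a y s).1.elim none (fun a' => some (Sum.inr (Sum.inr (Sum.inl a')))),
        (xact p₁ a y s).2)
  | .rd _ _ p₂, Sum.inr (Sum.inr (Sum.inr a)), y, s =>
      ((xact p₂ a y s).1.elim none (fun a' => some (Sum.inr (Sum.inr (Sum.inr a')))),
        (xact p₂ a y s).2)
  | .whl p, Sum.inl _, y, s =>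
      (y.elim none (fun _ => some (Sum.inr (xentry p))), .stay, s, .stay)
  | .whl p, Sum.inr a, y, s =>
      ((xact p a y s).1.elim (some (Sum.inl ())) (fun a' => some (Sum.inr a')), (xact p a y s).2)

/-- Abstract configurations: control state (`none` is the exit), position of the input head, tapes,
work heads. -/
abbrev XConf (p : XP) := Option (XSt p) × ℕ × (ℕ → ℤ → Sy) × (ℕ → ℤ)

/-- One step from a control state. -/
def xstep (w : List Bool) (p : XP) (a : XSt p) (n : ℕ) (T : ℕ → ℤ → Sy) (H : ℕ → ℤ) : XConf p :=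
  ((xact p a (inputSym w n) (T (xtp p a) (H (xtp p a)))).1,
    inputMove w (xact p a (inputSym w n) (T (xtp p a) (H (xtp p a)))).2.1 n,
    Function.update T (xtp p a) (Function.update (T (xtp p a)) (H (xtp p a))
      (xact p a (inputSym w n) (T (xtp p a) (H (xtp p a)))).2.2.1),
    Function.update H (xtp p a) (H (xtp p a) +
      (xact p a (inputSym w n) (T (xtp p a) (H (xtp p a)))).2.2.2.toInt))

/-- One step with bounded heads. -/
def XStp (w : List Bool) (p : XP) (W : ℕ) (c c' : XConf p) : Prop :=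
  ∃ a, c.1 = some a ∧ c' = xstep w p a c.2.1 c.2.2.1 c.2.2.2 ∧
    ∀ i, 0 ≤ c'.2.2.2 i ∧ c'.2.2.2 i ≤ W + 1

/-- Several steps with bounded heads. -/
abbrev XSteps (w : List Bool) (p : XP) (W : ℕ) : XConf p → XConf p → Prop :=
  Relation.ReflTransGen (XStp w p W)

/-- The code of a letter. -/
def codeB (o : Option Bool) : ℕ := o.elim 0 fun a => 1 + a.toNat

/-- A transition system on tuples of numbers, which reads a letter of the input in each step and
guesses a bit. -/
structure NumMach (α : Type) where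
  start : α
  addr : α → ℕ
  next : α → ℕ → ℕ → α
  acc : α → ℕ

/-- One step with the guessed bit `γ`. -/
def NumMach.nx {α : Type} (N : NumMach α) (w : List Bool) (a : α) (γ : ℕ) : α :=
  N.next a (codeB w[N.addr a]?) γ

/-- Reachable states. -/
def NumMach.Reach {α : Type} (N : NumMach α) (w : List Bool) (a : α) : Prop :=
  Relation.ReflTransGen (fun x x' => ∃ γ < 2, x' = N.nx w x γ) N.start a

end Pool.Agent.Helper1.TE
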