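import Pool.Agent.Helper1.TE.Alg
import Pool.Agent.Helper1.TE.XP

/-!
# Tree evaluation in nondeterministic space: the machine with numbers as registers
-/

namespace Pool.Agent.Helper1.TE

open Pool.Agent.Helper65.LinSpace (dig tab nrec ifz eq01 le01 lt01 capPow)
open Finset

/-- `x` if `c = 0` and `y` otherwise. -/
def cif {β : Type} (c : ℕ) (x y : β) : β := if c = 0 then x else y

/-- The number with the digits `d 0, …, d (m - 1)` in base `q`, cut off at `W`. -/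
def ctab (W q m : ℕ) (d : ℕ → ℕ) : ℕ :=
  nrec 0 (fun i r => min (r + d i * capPow q i W) W) m

/-- Three components. -/
abbrev C3 := (ℕ × ℕ) × (ℕ × ℕ) × (ℕ × ℕ)

/-- Component number `i`. -/
def getC (C : C3) (i : ℕ) : ℕ × ℕ := cif i C.1 (cif (i - 1) C.2.1 C.2.2)

/-- Change of the component number `i`. -/
def setC (C : C3) (i : ℕ) (z : ℕ × ℕ) : C3 :=
  cif i (z, C.2) (cif (i - 1) (C.1, z, C.2.2) (C.1, C.2.1, z))

/-- The components as a function. -/
def toF (C : C3) (i : Fin 3) : ℕ × ℕ := getC C i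

section machine

variable (h b W : ℕ)

/-- The vectors. -/
def cM (p i : ℕ) : ℕ := ctab W 2 (sP h b) fun t => bitc b (seed b W) p (i * sP h b + t)

/-- The functional. -/
def wM (p X : ℕ) : ℕ := wN (cM h b W) (mP h b) (LP h b W) (RP h b) p X

/-- The modulus. -/
def PM : ℕ := LP h b W + RP h b

/-- The base of the stacks. -/
def GM : ℕ := PM h b W / RP h b + 1

/-- The shift. -/
def shM (p X : ℕ) : ℕ :=
  ctab W (PM h b W) (mP h b + 2) fun i => (dig (PM h b W) X i + vN (cM h b W) (mP h b) p i) %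
    PM h b W

/-- The backward shift. -/
def ushM (p X : ℕ) : ℕ :=
  ctab W (PM h b W) (mP h b + 2) fun i =>
    (dig (PM h b W) X i + (PM h b W - vN (cM h b W) (mP h b) p i)) % PM h b W

/-- Change of the coordinate `m`. -/
def addM (X y : ℕ) : ℕ :=
  ctab W (PM h b W) (mP h b + 2) fun i =>
    ifz (eq01 i (mP h b)) (dig (PM h b W) X i) ((dig (PM h b W) X (mP h b) + y) % PM h b W)

/-- Hiding. -/
def hdM (p : ℕ) (z : ℕ × ℕ) : ℕ × ℕ :=
  (addM h b W z.1 (RP h b * (wM h b W p z.1 / RP h b)),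
    GM h b W * z.2 + wM h b W p z.1 / RP h b)

/-- Test for a transformation. -/
def apT (tst : ℕ → ℕ) (T v : ℕ) (z : ℕ × ℕ) : ℕ :=
  ifz T (tst v) (ifz (T - 1) 1 (lt01 (wM h b W v (ushM h b W v z.1)) (RP h b)))

/-- A transformation. -/
def apM (T v : ℕ) (z : ℕ × ℕ) : ℕ × ℕ :=
  cif T z (cif (T - 1) (hdM h b W v z)
    (addM h b W (ushM h b W v z.1) (PM h b W - RP h b * (z.2 % GM h b W)), z.2 / GM h b W))

/-- Test of the step at the time `τ` with the letters `v`. -/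
def bigT (tst : ℕ → ℕ) (τ v : ℕ) (C : C3) : ℕ :=
  ifz (kindN h τ - 1)
    (apT h b W tst (trN h τ (lvl h τ)) v (getC C (tgN h τ (lvl h τ)))) 1

/-- The step at the time `τ` with the guesses `g / 2 ^ b`, `g % 2 ^ b` and the letters `v`. -/
def bigC (τ g v : ℕ) (C : C3) : C3 :=
  cif (kindN h τ)
    (setC C (tgN h τ (lvl h τ)) (apM h b W (trN h τ (lvl h τ)) v (getC C (tgN h τ (lvl h τ)))))
    (cif (kindN h τ - 1)
      (setC (setC (setC C (tgN h τ (lvl h τ))
          (apM h b W (trN h τ (lvl h τ)) v (getC C (tgN h τ (lvl h τ)))))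
        ((tgN h τ (lvl h τ) + 1) % 3)
          (shM h b W (g / 2 ^ b) (getC C ((tgN h τ (lvl h τ) + 1) % 3)).1,
            (getC C ((tgN h τ (lvl h τ) + 1) % 3)).2))
        ((tgN h τ (lvl h τ) + 2) % 3)
          (shM h b W (g % 2 ^ b) (getC C ((tgN h τ (lvl h τ) + 2) % 3)).1,
            (getC C ((tgN h τ (lvl h τ) + 2) % 3)).2)) C)

/-- The block which is read at the time `τ`. -/
def blkM (τ g : ℕ) : ℕ :=
  ifz (kindN h τ) (nodeN h τ (lvl h τ) W - capPow 2 h W)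
    (capPow 2 h W + (nodeN h τ (lvl h τ) W - 1) * capPow 4 b W + g)

end machine

/-- States: mode, `h`, `b`, counter, two powers of two; time, guess, letters; components. -/
abbrev Sta := (ℕ × ℕ × ℕ × ℕ × ℕ × ℕ) × (ℕ × ℕ × ℕ) × C3

/-- The mode. -/
def Sta.mo (x : Sta) : ℕ := x.1.1
/-- The height. -/
def Sta.h (x : Sta) : ℕ := x.1.2.1
/-- The number of bits. -/
def Sta.b (x : Sta) : ℕ := x.1.2.2.1
/-- The counter. -/
def Sta.u (x : Sta) : ℕ := x.1.2.2.2.1
/-- The first power. -/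
def Sta.W (x : Sta) : ℕ := x.1.2.2.2.2.1
/-- The second power. -/
def Sta.U (x : Sta) : ℕ := x.1.2.2.2.2.2
/-- The time. -/
def Sta.τ (x : Sta) : ℕ := x.2.1.1
/-- The guess. -/
def Sta.g (x : Sta) : ℕ := x.2.1.2.1
/-- The letters read. -/
def Sta.v (x : Sta) : ℕ := x.2.1.2.2
/-- The components. -/
def Sta.C (x : Sta) : C3 := x.2.2

/-- The state with empty second part. -/
def hdr (mo h b u W U : ℕ) : Sta := ((mo, h, b, u, W, U), (0, 0, 0), ((0, 0), (0, 0), (0, 0)))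

/-- The state in the main loop. -/
def mainS (h b u W τ g v : ℕ) (C : C3) : Sta := ((7, h, b, u, W, 0), (τ, g, v), C)

/-- The length of an instance, from `W = 2 ^ h` and `U = 4 ^ b`. -/
def lenM (h b W U : ℕ) : ℕ := h + b + 2 + (W + (W - 1) * U) * b

/-- The address of the letter which is read. -/
def addrM (x : Sta) : ℕ :=
  ifz x.mo x.h
  (ifz (x.mo - 1) (x.h + 1 + x.b)
  (ifz (x.mo - 2) x.W
  (ifz (x.mo - 3) x.U
  (ifz (x.mo - 4) (lenM x.h x.b x.W x.U)
  (ifz (x.mo - 5) (lenM x.h x.b x.W x.U - 1)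
    (x.h + x.b + 2 + blkM x.h x.b x.W x.τ x.g * x.b + (x.u - 2 * x.b)))))))

/-- The rejecting state. -/
def rejS : Sta := hdr 9 0 0 0 0 0

/-- The accepting state. -/
def accS : Sta := hdr 8 0 0 0 0 0

/-- `1` if a bit is guessed in this state. -/
def gqM (x : Sta) : ℕ := eq01 x.mo 7 * lt01 x.u (2 * x.b) * eq01 (kindN x.h x.τ) 1

/-- The next state; `y` is the code of the letter (`0` none, `1` false, `2` true), `γ` is the
guessed bit, `ok` tests the parameters, `tst` the value of the root, and `mal` says if all other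
words are accepted. -/
def nextN (ok : ℕ → ℕ → ℕ) (tst : ℕ → ℕ) (mal : ℕ) (x : Sta) (y γ : ℕ) : Sta :=
  cif x.mo
    (cif y (cif mal rejS accS) (cif (y - 1) (hdr 1 x.h 0 0 0 0) (hdr 0 (x.h + 1) 0 0 0 0)))
  (cif (x.mo - 1)
    (cif y (cif mal rejS accS)
      (cif (y - 1) (cif (x.h * x.b * ok x.h x.b) (cif mal rejS accS) (hdr 2 x.h x.b 0 1 0))
      (hdr 1 x.h (x.b + 1) 0 0 0)))
  (cif (x.mo - 2)
    (cif y (cif mal rejS accS)
      (cif (x.h - x.u) (hdr 3 x.h x.b 0 x.W 1) (hdr 2 x.h x.b (x.u + 1) (2 * x.W) 0)))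
  (cif (x.mo - 3)
    (cif y (cif mal rejS accS) (cif (2 * x.b - x.u) (hdr 4 x.h x.b 0 x.W x.U)
      (hdr 3 x.h x.b (x.u + 1) x.W (2 * x.U))))
  (cif (x.mo - 4)
    (cif y (hdr 5 x.h x.b 0 x.W x.U) (cif mal rejS accS))
  (cif (x.mo - 5)
    (cif y (cif mal rejS accS) (hdr 6 x.h x.b 0 1 0))
  (cif (x.mo - 6)
    (cif (EP x.h x.b - x.u) (mainS x.h x.b 0 x.W 0 0 0 ((0, 0), (0, 0), (0, 0)))
      (hdr 6 x.h x.b (x.u + 1) (2 * x.W) 0))
  (cif (x.mo - 7)
    (cif (2 * x.b - x.u)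
      (cif (3 * x.b - x.u)
        (cif (bigT x.h x.b x.W tst x.τ x.v x.C) rejS
          (cif ((x.τ + 1) / 5 ^ x.h)
            (mainS x.h x.b 0 x.W (x.τ + 1) 0 0 (bigC x.h x.b x.W x.τ x.g x.v x.C))
            accS))
        (mainS x.h x.b (x.u + 1) x.W x.τ x.g (2 * x.v + (y - 1)) x.C))
      (mainS x.h x.b (x.u + 1) x.W x.τ (2 * x.g + γ) x.v x.C))
    x)))))))

/-- The next state; the bit `1` is allowed only if a bit is guessed. -/
def nextM (ok : ℕ → ℕ → ℕ) (tst : ℕ → ℕ) (mal : ℕ) (x : Sta) (y γ : ℕ) : Sta :=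
  cif (γ * (1 - gqM x)) (nextN ok tst mal x y γ) (cif (eq01 x.mo 8) rejS x)

/-- The machine. -/
def machM (ok : ℕ → ℕ → ℕ) (tst : ℕ → ℕ) (mal : ℕ) : NumMach Sta where
  start := hdr 0 0 0 0 0 0
  addr := addrM
  next := nextM ok tst mal
  acc x := eq01 x.mo 8

end Pool.Agent.Helper1.TE
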